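import Pool.Agent.Helper32.DX.Small
import Pool.Agent.Helper64.C3.Lam
import Pool.Agent.Helper64.C3.Circ

/-!
# DX: the functions `z / (1 - w z + z²)`
-/

set_option autoImplicit false

open Metric Set Filter Topology
open scoped ComplexConjugate

namespace Pool.Agent.Helper32.DX

open Pool.Agent.Helper64.C3
open Pool.Agent.Helper39.QM

noncomputable def fw (w : ℝ) (z : ℂ) : ℂ := z / Nn ((2 - w) / 4) z

theorem Nn_eq (w : ℝ) (z : ℂ) : Nn ((2 - w) / 4) z = 1 - w * z + z ^ 2 := by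
  unfold Nn
  push_cast
  ring

theorem ball_norm {z : ℂ} (hz : z ∈ ball (0 : ℂ) 1) : ‖z‖ < 1 := by simpa using hz

theorem fw_diff {w : ℝ} (h0 : 0 ≤ w) (h1 : w ≤ 2) : DifferentiableOn ℂ (fw w) (ball 0 1) := by
  unfold fw
  have hd : Differentiable ℂ (fun z => Nn ((2 - w) / 4) z) := by
    unfold Nn
    fun_prop
  apply DifferentiableOn.div differentiableOn_id hd.differentiableOn
  intro z hz
  exact Nn_ne (by linarith) (by linarith) (ball_norm hz)

theorem fw_mul {w : ℝ} (h0 : 0 ≤ w) (h1 : w ≤ 2) {z : ℂ} (hz : z ∈ ball (0 : ℂ) 1) :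
    fw w z * (1 - w * z + z ^ 2) = z := by
  unfold fw
  rw [← Nn_eq]
  have := Nn_ne (t := (2 - w) / 4) (by linarith) (by linarith) (ball_norm hz)
  exact div_mul_cancel₀ z this

theorem fw_classS {w : ℝ} (h0 : 0 ≤ w) (h1 : w ≤ 2) : ClassS (fw w) := by
  refine ⟨fw_diff h0 h1, ?_, ?_, ?_⟩
  · intro z hz v hv h
    have e1 := fw_mul h0 h1 hz
    have e2 := fw_mul h0 h1 hv
    have hz1 := ball_norm hz
    have hv1 := ball_norm hv
    have h2 : (z - v) * (1 - z * v) = 0 := by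
      rw [h] at e1
      linear_combination (1 - w * z + z ^ 2) * e2 - (1 - w * v + v ^ 2) * e1
    rcases mul_eq_zero.mp h2 with h3 | h3
    · exact sub_eq_zero.mp h3
    · exfalso
      have h4 : z * v = 1 := (sub_eq_zero.mp h3).symm
      have h5 : ‖z‖ * ‖v‖ = 1 := by rw [← norm_mul, h4, norm_one]
      nlinarith [norm_nonneg z, norm_nonneg v]
  · unfold fw
    rw [zero_div]
  · have hd : Differentiable ℂ (fun z => Nn ((2 - w) / 4) z) := by
      unfold Nn
      fun_prop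
    have hN0 : Nn ((2 - w) / 4) 0 = 1 := by unfold Nn; simp
    have hN := (hd 0).hasDerivAt
    have h2 := (hasDerivAt_id (0 : ℂ)).div hN (by rw [hN0]; exact one_ne_zero)
    have h3 : deriv (fw w) 0 = _ := h2.deriv
    rw [h3]
    simp [hN0]

theorem coeff_zmul {G : ℂ → ℂ} (hG : DifferentiableOn ℂ G (ball 0 1)) (n : ℕ) :
    coeff (n + 1) (fun z => z * G z) = coeff n G := by
  have h1 : DifferentiableOn ℂ (fun z => (1 - z) * G z) (ball 0 1) :=
    (by fun_prop : DifferentiableOn ℂ (fun z : ℂ => 1 - z) (ball 0 1)).mul hG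
  have h2 : (fun z => z * G z) = fun z => G z - (1 - z) * G z := by
    funext z
    ring
  rw [h2, coeff_sub hG h1, coeff_one_sub_mul hG]
  ring

theorem fw_rec {w : ℝ} (h0 : 0 ≤ w) (h1 : w ≤ 2) (n : ℕ) :
    coeff (n + 2) (fw w) = w * coeff (n + 1) (fw w) - coeff n (fw w) := by
  have hf := fw_diff h0 h1
  have hz : DifferentiableOn ℂ (fun z => z * fw w z) (ball 0 1) := differentiableOn_id.mul hf
  have hz2 : DifferentiableOn ℂ (fun z => z * (z * fw w z)) (ball 0 1) := differentiableOn_id.mul hz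
  have hw : DifferentiableOn ℂ (fun z => (w : ℂ) * (z * fw w z)) (ball 0 1) := hz.const_mul _
  have h2 : coeff (n + 2) (fun z => fw w z - (w : ℂ) * (z * fw w z) + z * (z * fw w z))
      = coeff (n + 2) (fun z : ℂ => 1 * z) := by
    apply coeff_congr
    intro z hz
    have := fw_mul h0 h1 hz
    show fw w z - (w : ℂ) * (z * fw w z) + z * (z * fw w z) = 1 * z
    linear_combination this
  have hs : DifferentiableOn ℂ (fun z => fw w z - (w : ℂ) * (z * fw w z)) (ball 0 1) := hf.sub hw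
  rw [coeff_lin, if_neg (by omega)] at h2
  rw [coeff_add hs hz2, coeff_sub hf hw, coeff_cmul] at h2
  have e1 : coeff (n + 2) (fun z => z * fw w z) = coeff (n + 1) (fw w) := coeff_zmul hf (n + 1)
  have e2 : coeff (n + 2) (fun z => z * (z * fw w z)) = coeff n (fw w) := by
    have := coeff_zmul hz (n + 1)
    rw [this]
    exact coeff_zmul hf n
  rw [e1, e2] at h2
  linear_combination h2

theorem fw_coeffs {w : ℝ} (h0 : 0 ≤ w) (h1 : w ≤ 2) :
    coeff 2 (fw w) = (w : ℂ) ∧ coeff 3 (fw w) = (w : ℂ) ^ 2 - 1 ∧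
    coeff 4 (fw w) = (w : ℂ) ^ 3 - 2 * w ∧ coeff 5 (fw w) = (w : ℂ) ^ 4 - 3 * w ^ 2 + 1 := by
  have a0 : coeff 0 (fw w) = 0 := by rw [coeff_zero, (fw_classS h0 h1).2.2.1]
  have a1 : coeff 1 (fw w) = 1 := coeff_one_classS (fw_classS h0 h1)
  have a2 := fw_rec h0 h1 0
  have a3 := fw_rec h0 h1 1
  have a4 := fw_rec h0 h1 2
  have a5 := fw_rec h0 h1 3
  norm_num at a2 a3 a4 a5
  rw [a0, a1] at a2
  rw [a1, a2] at a3
  rw [a2, a3] at a4
  rw [a3, a4] at a5
  refine ⟨by rw [a2]; ring, by rw [a3]; ring, by rw [a4]; ring, by rw [a5]; ring⟩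

end Pool.Agent.Helper32.DX
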