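import Pool.Agent.Helper64.C3.KChain
import Pool.Agent.Helper64.C3.Growth
import Pool.Agent.Helper64.C3.Base
import Pool.Agent.Helper64.C3.Coef
import Pool.Agent.Helper39.QM.M_Coef

/-!
# DX: a monotonicity principle for functionals of bounded univalent functions

If a functional `F` loses at most `C (1-q)^2` in a Koebe step with parameter `q`, and is almost non
negative near the identity, then it is non negative.
-/

set_option autoImplicit false

open Metric Set Filter Topology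
open scoped ComplexConjugate

namespace Pool.Agent.Helper32.DX

open Pool.Agent.Helper64.C3
open Pool.Agent.Helper39.QM

theorem chain_principle (F : (ℂ → ℂ) → ℝ)
    (hc : ∀ H H' : ℂ → ℂ, EqOn H H' (ball 0 1) → F H = F H')
    (hb : ∀ ε : ℝ, 0 < ε → ∃ η : ℝ, 0 < η ∧ ∀ (H : ℂ → ℂ) (p : ℝ), SelfMap H →
      InjOn H (ball 0 1) → deriv H 0 = (p : ℂ) → 1 - η ≤ p → p ≤ 1 → -ε ≤ F H)
    (hs : ∀ α : ℝ, 0 < α → ∃ C : ℝ, 0 ≤ C ∧ ∀ (q : ℝ) (χ : ℂ) (H H' : ℂ → ℂ) (u : ℝ),
      1 / 2 ≤ q → q < 1 → ‖χ‖ = 1 → SelfMap H → InjOn H (ball 0 1) → deriv H 0 = (u : ℂ) →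
      α ≤ u → u ≤ 1 → SelfMap H' → InjOn H' (ball 0 1) →
      (∀ z ∈ ball (0 : ℂ) 1, H' z = kst q χ (H z)) → F H - C * (1 - q) ^ 2 ≤ F H')
    {h : ℂ → ℂ} {α : ℝ} (hα : 0 < α) (hh : SelfMap h) (hi : InjOn h (ball 0 1))
    (hder : deriv h 0 = (α : ℂ)) : 0 ≤ F h := by
  have hα1 := deriv_le_one hh hα hder
  obtain ⟨C, hC, hstep⟩ := hs α hα
  set ℓ := -Real.log α with hℓ
  have hℓ0 : 0 ≤ ℓ := by
    have := Real.log_nonpos hα.le hα1
    linarith
  have key : ∀ ε : ℝ, 0 < ε → -(2 * ε) ≤ F h := by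
    intro ε hε
    obtain ⟨η, hη, hbase⟩ := hb ε hε
    obtain ⟨τ, hτ0, hτ1, hτ2, hτ3⟩ : ∃ τ : ℝ, 0 < τ ∧ τ ≤ 1 / 4 ∧ τ ≤ η ∧ C * (τ * ℓ) ≤ ε := by
      refine ⟨min (min (1 / 4) η) (ε / ((C + 1) * (ℓ + 1))), by positivity, ?_, ?_, ?_⟩
      · exact (min_le_left _ _).trans (min_le_left _ _)
      · exact (min_le_left _ _).trans (min_le_right _ _)
      · set τ := min (min (1 / 4) η) (ε / ((C + 1) * (ℓ + 1))) with hτ
        have h1 : τ ≤ ε / ((C + 1) * (ℓ + 1)) := min_le_right _ _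
        have h2 : 0 < (C + 1) * (ℓ + 1) := by positivity
        rw [le_div_iff₀ h2] at h1
        have h3 : 0 < τ := by positivity
        have h4 : 0 ≤ τ * C := by positivity
        have h5 : 0 ≤ τ * ℓ := by positivity
        nlinarith
    have hrc0 : 0 < 1 - τ := by linarith
    have hrc1 : 1 - τ < 1 := by linarith
    obtain ⟨m, p₀, H, χ, hch, hp₀, hp₀1, hqm, hHm⟩ := exists_chain hrc0 hrc1 hh hi hα hder
    obtain ⟨hκ1, hκ2⟩ := kappa_bounds hrc0 hrc1
    set q := 2 * Real.sqrt (1 - τ) / (1 + (1 - τ)) with hq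
    have hq0 : 0 < q := by linarith
    have h1q : 0 < 1 - q := by linarith
    have h1qτ : 1 - q ≤ τ := by linarith
    have hp₀0 : 0 < p₀ := by linarith
    have hm1 : m * (1 - q) ≤ ℓ := by
      have h1 : α ≤ q ^ m := by
        rw [← hqm]
        have : q ^ m * p₀ ≤ q ^ m * 1 := mul_le_mul_of_nonneg_left hp₀1 (by positivity)
        linarith
      have h2 : Real.log α ≤ m * Real.log q := by
        rw [← Real.log_pow]
        exact Real.log_le_log hα h1
      have h3 : Real.log q ≤ q - 1 := Real.log_le_sub_one_of_pos hq0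
      have h4 : (m : ℝ) * Real.log q ≤ m * (q - 1) := mul_le_mul_of_nonneg_left h3 (by positivity)
      rw [hℓ]
      linarith
    have hm2 : m * (1 - q) ^ 2 ≤ τ * ℓ := by
      calc m * (1 - q) ^ 2 = (m * (1 - q)) * (1 - q) := by ring
        _ ≤ ℓ * τ := mul_le_mul hm1 h1qτ h1q.le hℓ0
        _ = τ * ℓ := by ring
    have hind : ∀ i : ℕ, i ≤ m → F (H 0) - i * (C * (1 - q) ^ 2) ≤ F (H i) := by
      intro i
      induction i with
      | zero => intro _; simp
      | succ i ih =>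
        intro hi'
        have h1 := ih (by omega)
        have hd := hch.der i (by omega)
        have hpos : 0 < q ^ i * p₀ := by positivity
        have hge : α ≤ q ^ i * p₀ := by
          rw [← hqm]
          apply mul_le_mul_of_nonneg_right _ hp₀0.le
          exact pow_le_pow_of_le_one hq0.le hκ2.le (by omega)
        have h2 := hstep q (χ i) (H i) (H (i + 1)) (q ^ i * p₀) (by linarith) hκ2 (hch.chi i)
          (hch.self i (by omega)) (hch.inj i (by omega)) hd hge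
          (deriv_le_one (hch.self i (by omega)) hpos hd)
          (hch.self (i + 1) hi') (hch.inj (i + 1) hi') (hch.step i (by omega))
        push_cast
        linarith
    have h1 := hind m le_rfl
    have h2 := hbase (H 0) p₀ (hch.self 0 (Nat.zero_le m)) (hch.inj 0 (Nat.zero_le m))
      (by rw [hch.der 0 (Nat.zero_le m)]; simp) (by linarith) hp₀1
    have h3 : (m : ℝ) * (C * (1 - q) ^ 2) ≤ ε := by
      calc (m : ℝ) * (C * (1 - q) ^ 2) = C * (m * (1 - q) ^ 2) := by ring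
        _ ≤ C * (τ * ℓ) := mul_le_mul_of_nonneg_left hm2 hC
        _ ≤ ε := hτ3
    have h4 : F (H m) = F h := hc _ _ hHm
    rw [h4] at h1
    linarith
  by_contra hneg
  push Not at hneg
  have := key (-(F h) / 4) (by linarith)
  linarith

/-! ### The function `u z / h(z)` -/

/-- `u z / h z` for `u = h' 0` -/
noncomputable def AA (h : ℂ → ℂ) (z : ℂ) : ℂ := deriv h 0 / dslope h 0 z

theorem dslope_ne {h : ℂ → ℂ} (hh : SelfMap h) (hi : InjOn h (ball 0 1)) (h1 : deriv h 0 ≠ 0)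
    {z : ℂ} (hz : z ∈ ball (0 : ℂ) 1) : dslope h 0 z ≠ 0 := by
  intro h0
  have h2 : h z = h 0 := by
    rw [dslope_eq hh.2.2 z, h0, mul_zero, hh.2.2]
  have h3 : z = 0 := hi hz (by simp) h2
  rw [h3, dslope_same] at h0
  exact h1 h0

theorem AA_diff {h : ℂ → ℂ} (hh : SelfMap h) (hi : InjOn h (ball 0 1)) (h1 : deriv h 0 ≠ 0) :
    DifferentiableOn ℂ (AA h) (ball 0 1) := by
  have h2 : DifferentiableOn ℂ (dslope h 0) (ball 0 1) :=
    (Complex.differentiableOn_dslope (isOpen_ball.mem_nhds (by simp))).2 hh.1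
  unfold AA
  exact (differentiableOn_const _).div h2 (fun z hz => dslope_ne hh hi h1 hz)

theorem AA_zero {h : ℂ → ℂ} (h1 : deriv h 0 ≠ 0) : AA h 0 = 1 := by
  unfold AA
  rw [dslope_same, div_self h1]

theorem AA_mul {h : ℂ → ℂ} (hh : SelfMap h) (hi : InjOn h (ball 0 1)) (h1 : deriv h 0 ≠ 0)
    {z : ℂ} (hz : z ∈ ball (0 : ℂ) 1) : AA h z * h z = deriv h 0 * z := by
  unfold AA
  conv_lhs => rw [dslope_eq hh.2.2 z]
  have := dslope_ne hh hi h1 hz
  field_simp

/-- the Koebe step in terms of `AA` -/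
theorem AA_step {q : ℝ} (hq0 : 0 < q) (hq1 : q ≤ 1) {χ : ℂ} (hχ : ‖χ‖ = 1) {H H' : ℂ → ℂ}
    (hh : SelfMap H) (hi : InjOn H (ball 0 1)) (h1 : deriv H 0 ≠ 0) (hh' : SelfMap H')
    (hi' : InjOn H' (ball 0 1)) (hk : ∀ z ∈ ball (0 : ℂ) 1, H' z = kst q χ (H z))
    {z : ℂ} (hz : z ∈ ball (0 : ℂ) 1) :
    AA H' z * (q - χ * H z) = q * (AA H z * (1 - q * χ * H z)) := by
  have hqC : (q : ℂ) ≠ 0 := by exact_mod_cast hq0.ne'
  have hd : deriv H' 0 = q * deriv H 0 := deriv_kst hh hk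
  have hd0 : deriv H' 0 ≠ 0 := by rw [hd]; exact mul_ne_zero hqC h1
  rcases eq_or_ne z 0 with rfl | hz0
  · rw [AA_zero hd0, AA_zero h1, hh.2.2]
    ring
  · have e1 := AA_mul hh hi h1 hz
    have e2 := AA_mul hh' hi' hd0 hz
    have hw : ‖H z‖ < 1 := by simpa using hh.2.1 hz
    have hden := chi_den_ne hq0 hq1 hχ hw
    have hHz : H z ≠ 0 := by
      intro h0
      have : H z = H 0 := by rw [h0, hh.2.2]
      exact hz0 (hi hz (by simp) this)
    rw [hk z hz, kst, hd] at e2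
    have e3 : AA H' z * (H z * (q - χ * H z)) = q * deriv H 0 * z * (1 - q * χ * H z) := by
      have := e2
      rw [mul_div_assoc', div_eq_iff hden] at this
      exact this
    apply mul_left_cancel₀ hHz
    linear_combination e3 - q * (1 - q * χ * H z) * e1

end Pool.Agent.Helper32.DX
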