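import Pool.Agent.Helper32.DX.Grun
import Pool.Agent.Helper64.C3.UpperN

/-!
# DX: the two inequalities on the whole class `S`

Jenkins: `Re (2 b₁ + b₂) ≤ 2`; Grunsky (`2 × 2`): `Re (x² b₁ + 2 x y b₂ + y² (b₃ + b₁²/2)) ≤ |x|² + |y|²/2`,
where `z / f(z) = 1 - a₂ z + b₁ z² + b₂ z³ + b₃ z⁴ + ...`.
-/

set_option autoImplicit false

open Metric Set Filter Topology
open scoped ComplexConjugate

namespace Pool.Agent.Helper32.DX

open Pool.Agent.Helper64.C3
open Pool.Agent.Helper39.QM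

theorem itd_scale (F : ℂ → ℂ) (c : ℂ) (n : ℕ) :
    iteratedDeriv n (fun z => F (c * z)) = fun z => c ^ n * iteratedDeriv n F (c * z) := by
  induction n with
  | zero => simp
  | succ n ih =>
    funext z
    rw [iteratedDeriv_succ, ih, iteratedDeriv_succ]
    rw [deriv_const_mul_field]
    have h := deriv_comp_mul_left c (iteratedDeriv n F) z
    rw [h, smul_eq_mul, pow_succ]
    ring

theorem coeff_scale (F : ℂ → ℂ) (c d : ℂ) (n : ℕ) :
    coeff n (fun z => F (c * z) / d) = c ^ n / d * coeff n F := by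
  unfold coeff
  have h1 : (fun z => F (c * z) / d) = fun z => d⁻¹ * F (c * z) := by
    funext z
    rw [div_eq_inv_mul]
  rw [h1, iteratedDeriv_const_mul_field, itd_scale]
  simp only [mul_zero]
  ring

/-- the dilated function -/
theorem dil {f : ℂ → ℂ} (hf : ClassS f) {R : ℝ} (hR0 : 0 < R) (hR1 : R < 1) :
    ∃ C : ℝ, 0 < C ∧ ∀ N : ℝ, C < N → SelfMap (fun w => f (R * w) / N) ∧
      InjOn (fun w => f (R * w) / N) (ball 0 1) ∧
      deriv (fun w => f (R * w) / N) 0 = ((R / N : ℝ) : ℂ) := by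
  obtain ⟨hd, hi, h0, h1⟩ := hf
  obtain ⟨C, hC0, hC⟩ := bound_ball hd hR0 hR1
  refine ⟨C, hC0, fun N hN => ?_⟩
  have hRC : (R : ℂ) ≠ 0 := by exact_mod_cast hR0.ne'
  have hmem : ∀ w ∈ ball (0 : ℂ) 1, ‖(R : ℂ) * w‖ ≤ R ∧ (R : ℂ) * w ∈ ball (0 : ℂ) 1 := by
    intro w hw
    rw [mem_ball_zero_iff] at hw ⊢
    rw [norm_mul, Complex.norm_real, Real.norm_of_nonneg hR0.le]
    constructor <;> nlinarith [norm_nonneg w]
  have hN0 : 0 < N := by linarith
  have hNC : (N : ℂ) ≠ 0 := by exact_mod_cast hN0.ne'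
  have hlt : ∀ w ∈ ball (0 : ℂ) 1, ‖f (R * w) / N‖ < 1 := by
    intro w hw
    rw [norm_div, Complex.norm_real, Real.norm_of_nonneg hN0.le, div_lt_one hN0]
    have := hC _ (hmem w hw).1
    linarith
  refine ⟨⟨?_, fun w hw => ?_, ?_⟩, ?_, ?_⟩
  · apply DifferentiableOn.div_const
    exact hd.comp (by fun_prop) (fun w hw => (hmem w hw).2)
  · rw [mem_ball_zero_iff]
    exact hlt w hw
  · simp [h0]
  · intro x hx w hw hxw
    have h3 : f (R * x) = f (R * w) := (div_left_inj' hNC).1 hxw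
    exact mul_left_cancel₀ hRC (hi (hmem x hx).2 (hmem w hw).2 h3)
  · have h0b : (0 : ℂ) ∈ ball (0 : ℂ) 1 := by simp
    have a1 : HasDerivAt f 1 ((R : ℂ) * 0) := by
      rw [mul_zero, ← h1]
      exact (hd.differentiableAt (isOpen_ball.mem_nhds h0b)).hasDerivAt
    have a2 : HasDerivAt (fun z : ℂ => (R : ℂ) * z) R 0 := by
      simpa using (hasDerivAt_id (0 : ℂ)).const_mul (R : ℂ)
    have a3 := (a1.comp 0 a2).div_const (N : ℂ)
    have a4 := a3.deriv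
    rw [one_mul] at a4
    push_cast
    exact a4

/-- the coefficients of `z / f` from those of `f` -/
noncomputable def B1 (f : ℂ → ℂ) : ℂ := coeff 2 f ^ 2 - coeff 3 f
noncomputable def B2 (f : ℂ → ℂ) : ℂ := 2 * coeff 2 f * coeff 3 f - coeff 4 f - coeff 2 f ^ 3
noncomputable def B3 (f : ℂ → ℂ) : ℂ :=
  coeff 2 f * coeff 4 f - B1 f * coeff 3 f - B2 f * coeff 2 f - coeff 5 f

theorem ac_dil {f : ℂ → ℂ} (hf : ClassS f) {R : ℝ} (hR0 : 0 < R) (hR1 : R < 1) :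
    ∃ C : ℝ, 0 < C ∧ ∀ N : ℝ, C < N → SelfMap (fun w => f (R * w) / N) ∧
      InjOn (fun w => f (R * w) / N) (ball 0 1) ∧
      deriv (fun w => f (R * w) / N) 0 = ((R / N : ℝ) : ℂ) ∧
      ac 1 (fun w => f (R * w) / N) = -(R * coeff 2 f) ∧
      ac 2 (fun w => f (R * w) / N) = R ^ 2 * B1 f ∧
      ac 3 (fun w => f (R * w) / N) = R ^ 3 * B2 f ∧
      ac 4 (fun w => f (R * w) / N) = R ^ 4 * B3 f := by
  obtain ⟨C, hC0, hC⟩ := dil hf hR0 hR1
  refine ⟨C, hC0, fun N hN => ?_⟩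
  obtain ⟨h1, h2, h3⟩ := hC N hN
  have hN0 : 0 < N := by linarith
  have hNC : (N : ℂ) ≠ 0 := by exact_mod_cast hN0.ne'
  have hRC : (R : ℂ) ≠ 0 := by exact_mod_cast hR0.ne'
  set h := fun w => f (R * w) / N with hh
  have hd0 : deriv h 0 ≠ 0 := by
    rw [h3]
    push_cast
    exact div_ne_zero hRC hNC
  obtain ⟨e2, e3, e4, e5⟩ := ac_rel h1 h2 hd0
  have hc : ∀ n, coeff n h = (R : ℂ) ^ n / N * coeff n f := fun n => coeff_scale f R N n
  rw [hc] at e2 e3 e4 e5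
  rw [hc, hc, hc] at e5
  rw [h3] at e2 e3 e4 e5
  push_cast at e2 e3 e4 e5
  have g1 : ac 1 h = -(R * coeff 2 f) := by
    field_simp at e2
    linear_combination e2
  have g2 : ac 2 h = R ^ 2 * B1 f := by
    unfold B1
    field_simp at e3
    rw [g1] at e3
    linear_combination e3
  have g3 : ac 3 h = R ^ 3 * B2 f := by
    field_simp at e4
    rw [g1, g2] at e4
    unfold B1 at e4
    unfold B2
    linear_combination e4
  have g4 : ac 4 h = R ^ 4 * B3 f := by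
    rw [g1, g2, g3] at e5
    field_simp at e5
    unfold B3
    linear_combination e5
  exact ⟨h1, h2, h3, g1, g2, g3, g4⟩

theorem jenkins_S {f : ℂ → ℂ} (hf : ClassS f) : (2 * B1 f + B2 f).re ≤ 2 := by
  have key : ∀ R : ℝ, 0 < R → R < 1 → 0 ≤ VJ 0 (-(R * coeff 2 f)) (R ^ 2 * B1 f) (R ^ 3 * B2 f) := by
    intro R hR0 hR1
    obtain ⟨C, hC0, hC⟩ := ac_dil hf hR0 hR1
    have hev : ∀ᶠ u in 𝓝[>] (0 : ℝ), 0 ≤ VJ u (-(R * coeff 2 f)) (R ^ 2 * B1 f) (R ^ 3 * B2 f) := by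
      have hp : 0 < R / C := by positivity
      have : ∀ᶠ u in 𝓝[>] (0 : ℝ), u ∈ Ioo (0 : ℝ) (R / C) := Ioo_mem_nhdsGT hp
      filter_upwards [this] with u hu
      have hu0 := hu.1
      have hN : C < R / u := by
        rw [lt_div_iff₀ hu0]
        have := (lt_div_iff₀ hC0).1 hu.2
        linarith
      obtain ⟨h1, h2, h3, g1, g2, g3, g4⟩ := hC (R / u) hN
      have hru : R / (R / u) = u := by field_simp
      rw [hru] at h3
      have h := jenkins_pre hu0 h1 h2 h3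
      rwa [g1, g2, g3] at h
    have hcont : Continuous fun u : ℝ => VJ u (-(R * coeff 2 f)) (R ^ 2 * B1 f) (R ^ 3 * B2 f) := by
      unfold VJ
      fun_prop
    exact ge_of_tendsto ((hcont.tendsto 0).mono_left nhdsWithin_le_nhds) hev
  have hcont : Continuous fun R : ℝ => VJ 0 (-(R * coeff 2 f)) (R ^ 2 * B1 f) (R ^ 3 * B2 f) := by
    unfold VJ
    fun_prop
  have h1 : 0 ≤ VJ 0 (-(((1 : ℝ) : ℂ) * coeff 2 f)) (((1 : ℝ) : ℂ) ^ 2 * B1 f)
      (((1 : ℝ) : ℂ) ^ 3 * B2 f) := by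
    have hev : ∀ᶠ R in 𝓝[<] (1 : ℝ), R ∈ Ioo (0 : ℝ) 1 := Ioo_mem_nhdsLT (by norm_num)
    refine ge_of_tendsto ((hcont.tendsto 1).mono_left (nhdsWithin_le_nhds (s := Iio (1 : ℝ)))) ?_
    filter_upwards [hev] with R hR
    exact key R hR.1 hR.2
  unfold VJ at h1
  simp only [Complex.ofReal_one, one_mul, one_pow] at h1
  norm_num at h1
  simpa using h1

theorem grunsky_S {f : ℂ → ℂ} (hf : ClassS f) (x y : ℂ) :
    (QG x y (B1 f) (B2 f) (B3 f)).re ≤ Complex.normSq x + Complex.normSq y / 2 := by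
  have key : ∀ R : ℝ, 0 < R → R < 1 →
      0 ≤ VG x y 0 (-(R * coeff 2 f)) (R ^ 2 * B1 f) (R ^ 3 * B2 f) (R ^ 4 * B3 f) := by
    intro R hR0 hR1
    obtain ⟨C, hC0, hC⟩ := ac_dil hf hR0 hR1
    have hev : ∀ᶠ u in 𝓝[>] (0 : ℝ),
        0 ≤ VG x y u (-(R * coeff 2 f)) (R ^ 2 * B1 f) (R ^ 3 * B2 f) (R ^ 4 * B3 f) := by
      have hp : 0 < R / C := by positivity
      have : ∀ᶠ u in 𝓝[>] (0 : ℝ), u ∈ Ioo (0 : ℝ) (R / C) := Ioo_mem_nhdsGT hp
      filter_upwards [this] with u hu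
      have hu0 := hu.1
      have hN : C < R / u := by
        rw [lt_div_iff₀ hu0]
        have := (lt_div_iff₀ hC0).1 hu.2
        linarith
      obtain ⟨h1, h2, h3, g1, g2, g3, g4⟩ := hC (R / u) hN
      have hru : R / (R / u) = u := by field_simp
      rw [hru] at h3
      have h := grunsky_pre hu0 h1 h2 h3 x y
      rwa [g1, g2, g3, g4] at h
    have hcont : Continuous fun u : ℝ =>
        VG x y u (-(R * coeff 2 f)) (R ^ 2 * B1 f) (R ^ 3 * B2 f) (R ^ 4 * B3 f) := by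
      unfold VG
      have : Continuous fun u : ℝ => Complex.normSq (x * u - y * (u * -(R * coeff 2 f))) :=
        Complex.continuous_normSq.comp (by fun_prop)
      fun_prop
    exact ge_of_tendsto ((hcont.tendsto 0).mono_left nhdsWithin_le_nhds) hev
  have hcont : Continuous fun R : ℝ =>
      VG x y 0 (-(R * coeff 2 f)) (R ^ 2 * B1 f) (R ^ 3 * B2 f) (R ^ 4 * B3 f) := by
    unfold VG QG
    have : Continuous fun R : ℝ => Complex.normSq
        (x * ((0 : ℝ) : ℂ) - y * (((0 : ℝ) : ℂ) * -(R * coeff 2 f))) :=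
      Complex.continuous_normSq.comp (by fun_prop)
    fun_prop
  have h1 : 0 ≤ VG x y 0 (-(((1 : ℝ) : ℂ) * coeff 2 f)) (((1 : ℝ) : ℂ) ^ 2 * B1 f)
      (((1 : ℝ) : ℂ) ^ 3 * B2 f) (((1 : ℝ) : ℂ) ^ 4 * B3 f) := by
    have hev : ∀ᶠ R in 𝓝[<] (1 : ℝ), R ∈ Ioo (0 : ℝ) 1 := Ioo_mem_nhdsLT (by norm_num)
    refine ge_of_tendsto ((hcont.tendsto 1).mono_left (nhdsWithin_le_nhds (s := Iio (1 : ℝ)))) ?_
    filter_upwards [hev] with R hR
    exact key R hR.1 hR.2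
  unfold VG at h1
  simp only [Complex.ofReal_one, Complex.ofReal_zero, one_mul, one_pow, zero_mul, mul_zero,
    sub_zero, map_zero] at h1
  norm_num at h1
  linarith

end Pool.Agent.Helper32.DX
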