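import Pool.Agent.Helper32.DX.Jenk

/-!
# DX: the two by two Grunsky inequality
-/

set_option autoImplicit false

open Metric Set Filter Topology
open scoped ComplexConjugate

namespace Pool.Agent.Helper32.DX

open Pool.Agent.Helper64.C3
open Pool.Agent.Helper39.QM

/-- the Grunsky form -/
noncomputable def QG (x y a2 a3 a4 : ℂ) : ℂ :=
  x ^ 2 * a2 + 2 * x * y * a3 + y ^ 2 * (a4 + a2 ^ 2 / 2)

/-- the functional -/
noncomputable def VG (x y : ℂ) (u : ℝ) (a1 a2 a3 a4 : ℂ) : ℝ :=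
  Complex.normSq x + Complex.normSq y / 2 - (QG x y a2 a3 a4).re
    - Complex.normSq (x * u - y * (u * a1)) - Complex.normSq y * u ^ 4 / 2

noncomputable def RQ (x y : ℂ) (u q g : ℝ) (χ a1 a2 : ℂ) : ℂ :=
  x ^ 2 * ((((1 + 2 * q) * g ^ 2 : ℝ) : ℂ) * (χ ^ 2 * u ^ 2))
    + 2 * x * y * (u ^ 2 * ((((1 + 2 * q) * g ^ 2 : ℝ) : ℂ) * (-(χ ^ 2 * a1))
      + (((1 + 2 * q + 2 * q ^ 2) * g ^ 3 : ℝ) : ℂ) * (χ ^ 3 * u)))
    + y ^ 2 * (u ^ 2 * ((((1 + 2 * q) * g ^ 2 : ℝ) : ℂ) * (χ ^ 2 * (a1 ^ 2 - a2))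
      - (((1 + 2 * q + 2 * q ^ 2) * g ^ 3 : ℝ) : ℂ) * (2 * u * (χ ^ 3 * a1))
      + (((1 + 2 * q + 2 * q ^ 2 + 2 * q ^ 3) * g ^ 4 : ℝ) : ℂ) * (χ ^ 4 * u ^ 2))
      + a2 * ((((1 + 2 * q) * g ^ 2 : ℝ) : ℂ) * (χ ^ 2 * u ^ 2))
      + ((2 + (1 - q) * ((1 + 2 * q) * g ^ 2) : ℝ) * (χ ^ 2 * u ^ 2)) ^ 2 / 2)

theorem QG_step {q u : ℝ} (hq : 0 < q) {x y χ a1 a2 a3 a4 : ℂ} :
    QG x y (a2 + (kq q 2 : ℂ) * (χ ^ 2 * u ^ 2))
      (a3 + u ^ 2 * ((kq q 2 : ℂ) * (-(χ ^ 2 * a1)) + (kq q 3 : ℂ) * (χ ^ 3 * u)))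
      (a4 + u ^ 2 * ((kq q 2 : ℂ) * (χ ^ 2 * (a1 ^ 2 - a2))
      - (kq q 3 : ℂ) * (2 * u * (χ ^ 3 * a1)) + (kq q 4 : ℂ) * (χ ^ 4 * u ^ 2)))
    = QG x y a2 a3 a4 + ((1 - q : ℝ) : ℂ) * (2 * (χ ^ 2 * (x * u - y * (u * a1) + χ * u ^ 2 * y) ^ 2))
      + (((1 - q) ^ 2 : ℝ) : ℂ) * RQ x y u q q⁻¹ χ a1 a2 := by
  have k2 := kq2 hq
  have k3 := kq3 hq
  have k4 := kq4 hq
  set g := q⁻¹ with hgdef
  rw [k2, k3, k4]
  unfold QG RQ
  push_cast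
  ring

/-- the second order remainder -/
noncomputable def TG (x y : ℂ) (u q g : ℝ) (χ a1 a2 : ℂ) : ℝ :=
  -(RQ x y u q g χ a1 a2).re
    - (Complex.normSq (x * u - y * (u * a1) + 2 * (χ * u ^ 2 * y))
      + 2 * ((x * u - y * (u * a1)) * conj (χ * u ^ 2 * y)).re
      - 2 * (1 - q) * ((x * u - y * (u * a1) + 2 * (χ * u ^ 2 * y)) * conj (χ * u ^ 2 * y)).re
      + (1 - q) ^ 2 * Complex.normSq (χ * u ^ 2 * y))
    - Complex.normSq y * u ^ 4 * (6 - 4 * (1 - q) + (1 - q) ^ 2) / 2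

theorem TG_bound (x y : ℂ) (K : ℝ) : ∃ C : ℝ, 0 ≤ C ∧ ∀ (u q g : ℝ) (χ a1 a2 : ℂ), 0 ≤ u → u ≤ 1 →
    0 ≤ q → q ≤ 1 → 0 ≤ g → g ≤ 2 → ‖χ‖ ≤ 1 → ‖a1‖ ≤ K → ‖a2‖ ≤ K → |TG x y u q g χ a1 a2| ≤ C := by
  have hcomp : IsCompact ((Icc (0 : ℝ) 1 ×ˢ (Icc (0 : ℝ) 1 ×ˢ Icc (0 : ℝ) 2)) ×ˢ
      (closedBall (0 : ℂ) 1 ×ˢ (closedBall (0 : ℂ) K ×ˢ closedBall (0 : ℂ) K))) :=
    (isCompact_Icc.prod (isCompact_Icc.prod isCompact_Icc)).prod
      ((isCompact_closedBall _ _).prod ((isCompact_closedBall _ _).prod (isCompact_closedBall _ _)))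
  have hcont : Continuous (fun z : (ℝ × (ℝ × ℝ)) × (ℂ × (ℂ × ℂ)) =>
      TG x y z.1.1 z.1.2.1 z.1.2.2 z.2.1 z.2.2.1 z.2.2.2) := by
    unfold TG RQ
    have hn : Continuous Complex.normSq := Complex.continuous_normSq
    fun_prop
  obtain ⟨C, hC⟩ := hcomp.exists_bound_of_continuousOn hcont.continuousOn
  refine ⟨max C 0, le_max_right _ _, ?_⟩
  intro u q g χ a1 a2 hu hu1 hq hq1 hg hg1 hχ h1 h2
  have := hC ((u, (q, g)), (χ, (a1, a2)))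
    ⟨⟨⟨hu, hu1⟩, ⟨hq, hq1⟩, ⟨hg, hg1⟩⟩, ⟨by simpa using hχ, by simpa using h1, by simpa using h2⟩⟩
  rw [Real.norm_eq_abs] at this
  exact this.trans (le_max_left _ _)

theorem normSq_quad (Z M N : ℂ) (δ : ℝ) :
    Complex.normSq (Z - δ * M + ((δ ^ 2 : ℝ) : ℂ) * N)
      = Complex.normSq Z - 2 * δ * (Z * conj M).re + δ ^ 2 * (Complex.normSq M
        + 2 * (Z * conj N).re - 2 * δ * (M * conj N).re + δ ^ 2 * Complex.normSq N) := by
  simp only [Complex.normSq_apply, Complex.add_re, Complex.add_im, Complex.sub_re, Complex.sub_im,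
    Complex.mul_re, Complex.mul_im, Complex.ofReal_re, Complex.ofReal_im, Complex.conj_re,
    Complex.conj_im]
  ring

theorem VG_step_eq {q u : ℝ} (hq : 0 < q) {x y χ a1 a2 a3 a4 : ℂ} :
    VG x y (q * u) (a1 + (kq q 1 : ℂ) * (χ * u)) (a2 + (kq q 2 : ℂ) * (χ ^ 2 * u ^ 2))
      (a3 + u ^ 2 * ((kq q 2 : ℂ) * (-(χ ^ 2 * a1)) + (kq q 3 : ℂ) * (χ ^ 3 * u)))
      (a4 + u ^ 2 * ((kq q 2 : ℂ) * (χ ^ 2 * (a1 ^ 2 - a2))
      - (kq q 3 : ℂ) * (2 * u * (χ ^ 3 * a1)) + (kq q 4 : ℂ) * (χ ^ 4 * u ^ 2)))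
    = VG x y u a1 a2 a3 a4
      + (1 - q) * (-(2 * (χ ^ 2 * (x * u - y * (u * a1) + χ * u ^ 2 * y) ^ 2)).re
        + 2 * ((x * u - y * (u * a1)) * conj (x * u - y * (u * a1) + 2 * (χ * u ^ 2 * y))).re
        + 2 * (Complex.normSq y * u ^ 4))
      + (1 - q) ^ 2 * TG x y u q q⁻¹ χ a1 a2 := by
  have e1 : kq q 1 * q = 1 - q ^ 2 := by
    unfold kq; rw [pow_one, div_mul_cancel₀ _ hq.ne']
  have e1' : (q : ℂ) * (kq q 1 : ℂ) = 1 - (q : ℂ) ^ 2 := by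
    rw [mul_comm]; exact_mod_cast e1
  have eZ : x * ((q * u : ℝ) : ℂ) - y * (((q * u : ℝ) : ℂ) * (a1 + (kq q 1 : ℂ) * (χ * u)))
      = (x * u - y * (u * a1)) - ((1 - q : ℝ) : ℂ) * (x * u - y * (u * a1) + 2 * (χ * u ^ 2 * y))
        + (((1 - q) ^ 2 : ℝ) : ℂ) * (χ * u ^ 2 * y) := by
    push_cast
    linear_combination (-(y * u ^ 2 * χ)) * e1'
  unfold VG
  rw [QG_step hq, eZ, normSq_quad]
  rw [Complex.add_re, Complex.add_re, Complex.re_ofReal_mul, Complex.re_ofReal_mul]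
  unfold TG
  ring

theorem VG_S {u : ℝ} {x y χ a1 : ℂ} (hχ : ‖χ‖ = 1) :
    0 ≤ -(2 * (χ ^ 2 * (x * u - y * (u * a1) + χ * u ^ 2 * y) ^ 2)).re
        + 2 * ((x * u - y * (u * a1)) * conj (x * u - y * (u * a1) + 2 * (χ * u ^ 2 * y))).re
        + 2 * (Complex.normSq y * u ^ 4) := by
  set Z := x * u - y * (u * a1) with hZ
  set N := χ * u ^ 2 * y with hN
  have h1 : Complex.normSq χ = 1 := by rw [Complex.normSq_eq_norm_sq, hχ]; norm_num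
  have hNn : Complex.normSq y * u ^ 4 = Complex.normSq N := by
    rw [hN, Complex.normSq_mul, Complex.normSq_mul, h1, ← Complex.ofReal_pow, Complex.normSq_ofReal]
    ring
  have h2 : (2 * (χ ^ 2 * (Z + N) ^ 2)).re ≤ 2 * Complex.normSq (Z + N) := by
    have h3 := Complex.re_le_norm (2 * (χ ^ 2 * (Z + N) ^ 2))
    rw [norm_mul, norm_mul, norm_pow, norm_pow, hχ, Complex.norm_two] at h3
    rw [Complex.normSq_eq_norm_sq]
    linarith
  have h4 : 2 * (Z * conj (Z + 2 * N)).re + 2 * Complex.normSq N = 2 * Complex.normSq (Z + N) := by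
    simp only [Complex.normSq_apply, Complex.add_re, Complex.add_im, Complex.mul_re,
      Complex.mul_im, Complex.conj_re, Complex.conj_im, Complex.re_ofNat, Complex.im_ofNat]
    ring
  rw [hNn]
  linarith

theorem grunsky_pre {h : ℂ → ℂ} {α : ℝ} (hα : 0 < α) (hh : SelfMap h) (hi : InjOn h (ball 0 1))
    (hder : deriv h 0 = (α : ℂ)) (x y : ℂ) :
    0 ≤ VG x y α (ac 1 h) (ac 2 h) (ac 3 h) (ac 4 h) := by
  have key : 0 ≤ VG x y (deriv h 0).re (ac 1 h) (ac 2 h) (ac 3 h) (ac 4 h) := by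
    apply chain_principle (fun H => VG x y (deriv H 0).re (ac 1 H) (ac 2 H) (ac 3 H) (ac 4 H))
      ?_ ?_ ?_ hα hh hi hder
    · intro H H' hHH
      simp only [ac_congr hHH, deriv_congr hHH]
    · intro ε hε
      -- continuity at the identity
      have hcont : Continuous (fun z : ℝ × ((ℂ × ℂ) × (ℂ × ℂ)) =>
          VG x y z.1 z.2.1.1 z.2.1.2 z.2.2.1 z.2.2.2) := by
        unfold VG QG
        have hn : Continuous Complex.normSq := Complex.continuous_normSq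
        fun_prop
      have h0 : VG x y 1 0 0 0 0 = 0 := by
        unfold VG QG
        simp
      obtain ⟨δ, hδ, hδ2⟩ := Metric.continuousAt_iff.1
        (hcont.continuousAt (x := ((1 : ℝ), (((0 : ℂ), (0 : ℂ)), ((0 : ℂ), (0 : ℂ)))))) ε hε
      refine ⟨min (1 / 20000) (δ / 1000), by positivity, ?_⟩
      intro H p hH hHi hHd hp hp1
      set η := min (1 / 20000) (δ / 1000) with hη
      obtain ⟨b1, b2, b3, b4⟩ := ac_small hH hHi hHd (min_le_left _ _) hp hp1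
      rw [← hη] at b1 b2 b3 b4
      have hη2 : η ≤ δ / 1000 := min_le_right _ _
      have hη0 : 0 < η := by rw [hη]; positivity
      simp only [hHd, Complex.ofReal_re]
      have h5 := hδ2 (x := (p, ((ac 1 H, ac 2 H), (ac 3 H, ac 4 H)))) (by
        simp only [Prod.dist_eq, max_lt_iff, dist_zero_right]
        refine ⟨?_, ⟨?_, ?_⟩, ?_, ?_⟩
        · rw [Real.dist_eq, abs_lt]
          constructor <;> linarith
        all_goals linarith)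
      simp only [h0, Real.dist_eq, sub_zero] at h5
      exact (abs_lt.1 h5).1.le
    · intro α' hα'
      obtain ⟨K, hK, hKb⟩ := ac_bound hα'
      obtain ⟨C, hC, hCb⟩ := TG_bound x y K
      refine ⟨C, hC, ?_⟩
      intro q χ H H' u hq hq1 hχ hH hHi hHd hu hu1 hH' hHi' hk
      have hq0 : 0 < q := by linarith
      have hu0 : 0 < u := by linarith
      obtain ⟨s0, s1, s2, s3, s4⟩ := ac_step' hq0 hq1.le hχ hH hHi hu0.ne' hHd hH' hHi' hk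
      simp only [s0, s1, s2, s3, s4, hHd, Complex.ofReal_re]
      rw [VG_step_eq hq0]
      obtain ⟨b1, b2, -, -⟩ := hKb H u hH hHi hHd hu hu1
      have hg : q⁻¹ ≤ 2 := by
        rw [inv_le_comm₀ hq0 (by norm_num)]
        linarith
      have hT := hCb u q q⁻¹ χ (ac 1 H) (ac 2 H) hu0.le hu1 hq0.le hq1.le
        (by positivity) hg hχ.le b1 b2
      have hT2 := (abs_le.1 hT).1
      have hS := VG_S (u := u) (x := x) (y := y) (a1 := ac 1 H) hχ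
      have e2 := mul_nonneg (by linarith : 0 ≤ 1 - q) hS
      have e3 : -(C * (1 - q) ^ 2) ≤ (1 - q) ^ 2 * TG x y u q q⁻¹ χ (ac 1 H) (ac 2 H) := by
        nlinarith [sq_nonneg (1 - q)]
      linarith
  rwa [hder, Complex.ofReal_re] at key

end Pool.Agent.Helper32.DX
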