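import Pool.Agent.Helper32.DX.Pr

/-!
# DX: Jenkins' inequality `Re (2 b_1 + b_2) ≤ 2` with a Lyapunov term
-/

set_option autoImplicit false

open Metric Set Filter Topology
open scoped ComplexConjugate

namespace Pool.Agent.Helper32.DX

open Pool.Agent.Helper64.C3
open Pool.Agent.Helper39.QM

/-- the numbers `(1-q²)/q^j` -/
noncomputable def kq (q : ℝ) (j : ℕ) : ℝ := (1 - q ^ 2) / q ^ j

theorem kq1 {q : ℝ} (hq : 0 < q) : kq q 1 = 2 * (1 - q) + (1 - q) ^ 2 * q⁻¹ := by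
  unfold kq; field_simp; ring

theorem kq2 {q : ℝ} (hq : 0 < q) : kq q 2 = 2 * (1 - q) + (1 - q) ^ 2 * ((1 + 2 * q) * q⁻¹ ^ 2) := by
  unfold kq; field_simp; ring

theorem kq3 {q : ℝ} (hq : 0 < q) :
    kq q 3 = 2 * (1 - q) + (1 - q) ^ 2 * ((1 + 2 * q + 2 * q ^ 2) * q⁻¹ ^ 3) := by
  unfold kq; field_simp; ring

theorem kq4 {q : ℝ} (hq : 0 < q) :
    kq q 4 = 2 * (1 - q) + (1 - q) ^ 2 * ((1 + 2 * q + 2 * q ^ 2 + 2 * q ^ 3) * q⁻¹ ^ 4) := by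
  unfold kq; field_simp; ring

/-- the step with real factors -/
theorem ac_step' {q : ℝ} (hq0 : 0 < q) (hq1 : q ≤ 1) {χ : ℂ} (hχ : ‖χ‖ = 1) {H H' : ℂ → ℂ}
    (hh : SelfMap H) (hi : InjOn H (ball 0 1)) {u : ℝ} (hu : u ≠ 0) (hder : deriv H 0 = (u : ℂ))
    (hh' : SelfMap H')
    (hi' : InjOn H' (ball 0 1)) (hk : ∀ z ∈ ball (0 : ℂ) 1, H' z = kst q χ (H z)) :
    deriv H' 0 = ((q * u : ℝ) : ℂ) ∧
    ac 1 H' = ac 1 H + (kq q 1 : ℂ) * (χ * u) ∧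
    ac 2 H' = ac 2 H + (kq q 2 : ℂ) * (χ ^ 2 * u ^ 2) ∧
    ac 3 H' = ac 3 H + u ^ 2 * ((kq q 2 : ℂ) * (-(χ ^ 2 * ac 1 H))
      + (kq q 3 : ℂ) * (χ ^ 3 * u)) ∧
    ac 4 H' = ac 4 H + u ^ 2 * ((kq q 2 : ℂ) * (χ ^ 2 * (ac 1 H ^ 2 - ac 2 H))
      - (kq q 3 : ℂ) * (2 * u * (χ ^ 3 * ac 1 H))
      + (kq q 4 : ℂ) * (χ ^ 4 * u ^ 2)) := by
  obtain ⟨s0, s1, s2, s3, s4⟩ := ac_step hq0 hq1 hχ hh hi hu hder hh' hi' hk
  refine ⟨s0, ?_, ?_, ?_, ?_⟩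
  · rw [s1]; unfold kq; push_cast; ring
  · rw [s2]; unfold kq; push_cast; ring
  · rw [s3]; unfold kq; push_cast; ring
  · rw [s4]; unfold kq; push_cast; ring

/-- the functional -/
noncomputable def VJ (u : ℝ) (a1 a2 a3 : ℂ) : ℝ :=
  2 - (2 * a2 + a3).re - u ^ 2 * (2 - a1.re) - u * a1.im ^ 2

/-- the second order remainder of the step -/
noncomputable def TJ (u q g a b s t : ℝ) : ℝ :=
  -2 * u ^ 2 * (a ^ 2 - b ^ 2) * ((1 + 2 * q) * g ^ 2)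
    + u ^ 2 * ((a ^ 2 - b ^ 2) * s - 2 * a * b * t) * ((1 + 2 * q) * g ^ 2)
    - u ^ 3 * (a ^ 3 - 3 * a * b ^ 2) * ((1 + 2 * q + 2 * q ^ 2) * g ^ 3)
    - u ^ 2 * (2 - s) - u ^ 3 * a * (3 - (1 - q)) + 2 * u ^ 2 * b * t
    - u ^ 3 * b ^ 2 * (2 + (1 - q) * g) * (2 - (1 - q))

theorem TJ_bound (K : ℝ) : ∃ C : ℝ, 0 ≤ C ∧ ∀ u q g a b s t : ℝ, 0 ≤ u → u ≤ 1 → 0 ≤ q → q ≤ 1 →
    0 ≤ g → g ≤ 2 → |a| ≤ 1 → |b| ≤ 1 → |s| ≤ K → |t| ≤ K → |TJ u q g a b s t| ≤ C := by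
  have hcomp : IsCompact ((Icc (0 : ℝ) 1 ×ˢ (Icc (0 : ℝ) 1 ×ˢ Icc (0 : ℝ) 2)) ×ˢ
      ((Icc (-1 : ℝ) 1 ×ˢ Icc (-1 : ℝ) 1) ×ˢ (Icc (-K) K ×ˢ Icc (-K) K))) :=
    (isCompact_Icc.prod (isCompact_Icc.prod isCompact_Icc)).prod
      ((isCompact_Icc.prod isCompact_Icc).prod (isCompact_Icc.prod isCompact_Icc))
  have hcont : Continuous (fun x : (ℝ × (ℝ × ℝ)) × ((ℝ × ℝ) × (ℝ × ℝ)) =>
      TJ x.1.1 x.1.2.1 x.1.2.2 x.2.1.1 x.2.1.2 x.2.2.1 x.2.2.2) := by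
    unfold TJ
    fun_prop
  obtain ⟨C, hC⟩ := hcomp.exists_bound_of_continuousOn hcont.continuousOn
  refine ⟨max C 0, le_max_right _ _, ?_⟩
  intro u q g a b s t hu hu1 hq hq1 hg hg1 ha hb hs ht
  have := hC ((u, (q, g)), ((a, b), (s, t)))
    ⟨⟨⟨hu, hu1⟩, ⟨hq, hq1⟩, ⟨hg, hg1⟩⟩, ⟨⟨abs_le.1 ha, abs_le.1 hb⟩, ⟨abs_le.1 hs, abs_le.1 ht⟩⟩⟩
  rw [Real.norm_eq_abs] at this
  exact this.trans (le_max_left _ _)

theorem VJ_step_eq {q u : ℝ} (hq : 0 < q) {χ a1 a2 a3 : ℂ} :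
    VJ (q * u) (a1 + (kq q 1 : ℂ) * (χ * u)) (a2 + (kq q 2 : ℂ) * (χ ^ 2 * u ^ 2))
      (a3 + u ^ 2 * ((kq q 2 : ℂ) * (-(χ ^ 2 * a1)) + (kq q 3 : ℂ) * (χ ^ 3 * u)))
    = VJ u a1 a2 a3
      + (1 - q) * (-2 * u ^ 2 * (2 * (χ.re ^ 2 - χ.im ^ 2) - ((χ.re ^ 2 - χ.im ^ 2) * a1.re
          - 2 * χ.re * χ.im * a1.im) + (χ.re ^ 3 - 3 * χ.re * χ.im ^ 2) * u)
          + 2 * u ^ 2 * (2 - a1.re) + 2 * u ^ 3 * χ.re + u * a1.im ^ 2 - 4 * u ^ 2 * χ.im * a1.im)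
      + (1 - q) ^ 2 * TJ u q q⁻¹ χ.re χ.im a1.re a1.im := by
  have hg : q⁻¹ * q = 1 := inv_mul_cancel₀ hq.ne'
  set g := q⁻¹ with hgdef
  have k1 := kq1 hq
  have k2 := kq2 hq
  have k3 := kq3 hq
  rw [← hgdef] at k1 k2 k3
  have e1 : kq q 1 * q = 1 - q ^ 2 := by
    unfold kq; rw [pow_one, div_mul_cancel₀ _ hq.ne']
  unfold VJ
  have r1 : (a1 + (kq q 1 : ℂ) * (χ * u)).re = a1.re + kq q 1 * (χ.re * u) := by
    simp
  have i1 : (a1 + (kq q 1 : ℂ) * (χ * u)).im = a1.im + kq q 1 * (χ.im * u) := by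
    simp
  have r2 : (a2 + (kq q 2 : ℂ) * (χ ^ 2 * u ^ 2)).re
      = a2.re + kq q 2 * ((χ.re ^ 2 - χ.im ^ 2) * u ^ 2) := by
    simp [pow_two, Complex.mul_re, Complex.mul_im]
  have r3 : (a3 + u ^ 2 * ((kq q 2 : ℂ) * (-(χ ^ 2 * a1)) + (kq q 3 : ℂ) * (χ ^ 3 * u))).re
      = a3.re + u ^ 2 * (kq q 2 * (-((χ.re ^ 2 - χ.im ^ 2) * a1.re - 2 * χ.re * χ.im * a1.im))
        + kq q 3 * ((χ.re ^ 3 - 3 * χ.re * χ.im ^ 2) * u)) := by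
    have x2 : (χ ^ 2 * a1).re = (χ.re ^ 2 - χ.im ^ 2) * a1.re - 2 * χ.re * χ.im * a1.im := by
      simp only [pow_two, Complex.mul_re, Complex.mul_im]; ring
    have x3 : (χ ^ 3).re = χ.re ^ 3 - 3 * χ.re * χ.im ^ 2 := by
      simp only [pow_succ, pow_zero, one_mul, Complex.mul_re, Complex.mul_im]; ring
    have e : (u : ℂ) ^ 2 * ((kq q 2 : ℂ) * (-(χ ^ 2 * a1)) + (kq q 3 : ℂ) * (χ ^ 3 * u))
        = ((u ^ 2 * kq q 2 : ℝ) : ℂ) * (-(χ ^ 2 * a1)) + ((u ^ 2 * kq q 3 * u : ℝ) : ℂ) * χ ^ 3 := by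
      push_cast; ring
    rw [e, Complex.add_re, Complex.add_re, Complex.re_ofReal_mul, Complex.re_ofReal_mul,
      Complex.neg_re, x2, x3]
    ring
  have r4 : ∀ x y : ℂ, (2 * x + y).re = 2 * x.re + y.re := by
    intro x y; simp
  rw [r4, r4, r1, i1, r2, r3]
  have hk1q : kq q 1 * q = 2 * (1 - q) - (1 - q) ^ 2 := by rw [e1]; ring
  -- reduce `q * kq q 1 ^ 2`
  have expand : q * u * (a1.im + kq q 1 * (χ.im * u)) ^ 2
      = q * u * a1.im ^ 2 + 2 * u ^ 2 * χ.im * a1.im * (kq q 1 * q)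
        + u ^ 3 * χ.im ^ 2 * (kq q 1 * (kq q 1 * q)) := by ring
  have expand2 : (q * u) ^ 2 * (2 - (a1.re + kq q 1 * (χ.re * u)))
      = q ^ 2 * u ^ 2 * (2 - a1.re) - q * u ^ 3 * χ.re * (kq q 1 * q) := by ring
  rw [expand, expand2, hk1q, k1, k2, k3]
  unfold TJ
  ring

theorem VJ_S {u : ℝ} {χ a1 : ℂ} (hχ : ‖χ‖ = 1) :
    -2 * u ^ 2 * (2 * (χ.re ^ 2 - χ.im ^ 2) - ((χ.re ^ 2 - χ.im ^ 2) * a1.re
          - 2 * χ.re * χ.im * a1.im) + (χ.re ^ 3 - 3 * χ.re * χ.im ^ 2) * u)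
          + 2 * u ^ 2 * (2 - a1.re) + 2 * u ^ 3 * χ.re + u * a1.im ^ 2 - 4 * u ^ 2 * χ.im * a1.im
    = u * ((-a1.im + 2 * u * χ.im * (1 + χ.re)) ^ 2
      + 4 * u * χ.im ^ 2 * (2 - a1.re - 2 * u + u * χ.im ^ 2)) := by
  have h1 : χ.re ^ 2 + χ.im ^ 2 = 1 := by
    have h2 : ‖χ‖ ^ 2 = 1 := by rw [hχ]; norm_num
    rw [← Complex.normSq_eq_norm_sq, Complex.normSq_apply] at h2
    linarith
  have h3 : χ.im ^ 2 = 1 - χ.re ^ 2 := by linarith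
  have h4 : χ.im ^ 4 = (1 - χ.re ^ 2) ^ 2 := by rw [← h3]; ring
  ring_nf
  rw [h4, h3]
  ring

theorem jenkins_pre {h : ℂ → ℂ} {α : ℝ} (hα : 0 < α) (hh : SelfMap h) (hi : InjOn h (ball 0 1))
    (hder : deriv h 0 = (α : ℂ)) : 0 ≤ VJ α (ac 1 h) (ac 2 h) (ac 3 h) := by
  have key : 0 ≤ VJ (deriv h 0).re (ac 1 h) (ac 2 h) (ac 3 h) := by
    apply chain_principle (fun H => VJ (deriv H 0).re (ac 1 H) (ac 2 H) (ac 3 H)) ?_ ?_ ?_ hα hh hi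
      hder
    · intro H H' hHH
      simp only [ac_congr hHH, deriv_congr hHH]
    · intro ε hε
      refine ⟨min (1 / 20000) (ε / 6000), by positivity, ?_⟩
      intro H p hH hHi hHd hp hp1
      set η := min (1 / 20000) (ε / 6000) with hη
      obtain ⟨b1, b2, b3, -⟩ := ac_small hH hHi hHd (min_le_left _ _) hp hp1
      rw [← hη] at b1 b2 b3
      have hη1 : η ≤ 1 / 20000 := min_le_left _ _
      have hη2 : η ≤ ε / 6000 := min_le_right _ _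
      have hη0 : 0 < η := by rw [hη]; positivity
      simp only [hHd, Complex.ofReal_re]
      unfold VJ
      have r4 : (2 * ac 2 H + ac 3 H).re = 2 * (ac 2 H).re + (ac 3 H).re := by simp
      rw [r4]
      have c1 := (abs_le.1 ((Complex.abs_re_le_norm (ac 1 H)).trans b1))
      have c2 := (abs_le.1 ((Complex.abs_re_le_norm (ac 2 H)).trans b2))
      have c3 := (abs_le.1 ((Complex.abs_re_le_norm (ac 3 H)).trans b3))
      have c4 := (abs_le.1 ((Complex.abs_im_le_norm (ac 1 H)).trans b1))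
      have d1 : (ac 1 H).im ^ 2 ≤ 600 * η := by
        have : (ac 1 H).im ^ 2 ≤ (600 * η) ^ 2 := sq_le_sq' c4.1 c4.2
        nlinarith
      have hp0 : 0 < p := by linarith
      have d2 : p ^ 2 * (2 - (ac 1 H).re) ≤ 2 + 600 * η := by
        have : p ^ 2 ≤ 1 := by nlinarith
        have h2 : 0 ≤ 2 - (ac 1 H).re := by linarith [c1.2]
        nlinarith [c1.1]
      have d3 : p * (ac 1 H).im ^ 2 ≤ 600 * η := by
        have := sq_nonneg (ac 1 H).im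
        nlinarith
      linarith [c2.2, c3.2]
    · intro α' hα'
      obtain ⟨K, hK, hKb⟩ := ac_bound hα'
      obtain ⟨C, hC, hCb⟩ := TJ_bound K
      refine ⟨C, hC, ?_⟩
      intro q χ H H' u hq hq1 hχ hH hHi hHd hu hu1 hH' hHi' hk
      have hq0 : 0 < q := by linarith
      have hu0 : 0 < u := by linarith
      obtain ⟨s0, s1, s2, s3, -⟩ := ac_step' hq0 hq1.le hχ hH hHi hu0.ne' hHd hH' hHi' hk
      simp only [s0, s1, s2, s3, hHd, Complex.ofReal_re]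
      rw [VJ_step_eq hq0, VJ_S hχ]
      obtain ⟨b1, -, -, -⟩ := hKb H u hH hHi hHd hu hu1
      have hP := pick_ineq hu0 hH hHi hHd
      have c1 := (abs_le.1 (Complex.abs_re_le_norm (ac 1 H))).2
      have hre : |χ.re| ≤ 1 := by rw [← hχ]; exact Complex.abs_re_le_norm χ
      have him : |χ.im| ≤ 1 := by rw [← hχ]; exact Complex.abs_im_le_norm χ
      have hg : q⁻¹ ≤ 2 := by
        rw [inv_le_comm₀ hq0 (by norm_num)]
        linarith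
      have hT := hCb u q q⁻¹ χ.re χ.im (ac 1 H).re (ac 1 H).im hu0.le hu1 hq0.le hq1.le
        (by positivity) hg hre him ((Complex.abs_re_le_norm _).trans b1)
        ((Complex.abs_im_le_norm _).trans b1)
      have hT2 := (abs_le.1 hT).1
      have hS : 0 ≤ u * ((-(ac 1 H).im + 2 * u * χ.im * (1 + χ.re)) ^ 2
          + 4 * u * χ.im ^ 2 * (2 - (ac 1 H).re - 2 * u + u * χ.im ^ 2)) := by
        have e1 : 0 ≤ 2 - (ac 1 H).re - 2 * u + u * χ.im ^ 2 := by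
          have : 0 ≤ u * χ.im ^ 2 := by positivity
          linarith
        positivity
      have e2 : 0 ≤ (1 - q) * (u * ((-(ac 1 H).im + 2 * u * χ.im * (1 + χ.re)) ^ 2
          + 4 * u * χ.im ^ 2 * (2 - (ac 1 H).re - 2 * u + u * χ.im ^ 2))) :=
        mul_nonneg (by linarith) hS
      have e3 : -(C * (1 - q) ^ 2) ≤ (1 - q) ^ 2 * TJ u q q⁻¹ χ.re χ.im (ac 1 H).re (ac 1 H).im := by
        nlinarith [sq_nonneg (1 - q)]
      linarith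
  rwa [hder, Complex.ofReal_re] at key

end Pool.Agent.Helper32.DX
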