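import Pool.Agent.Helper32.DX.Sharp

/-!
# DX: the exact constants for `n = 2, 3, 4, 5`
-/

set_option autoImplicit false

open Metric Set Filter Topology

namespace Pool.Agent.Helper32.DX

open Pool.Agent.Helper64.C3
open Pool.Agent.Helper39.QM

/-- lower bounds for the moduli -/
theorem lower {f : ℂ → ℂ} (hf : ClassS f) :
    ‖coeff 2 f‖ ^ 2 - 1 ≤ ‖coeff 3 f‖ ∧
    ‖coeff 2 f‖ ^ 3 - 2 * ‖coeff 2 f‖ ≤ ‖coeff 4 f‖ ∧
    ((3 - Real.sqrt 5) / 2 ≤ ‖coeff 2 f‖ ^ 2 →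
      ‖coeff 2 f‖ ^ 4 - 3 * ‖coeff 2 f‖ ^ 2 + 1 ≤ ‖coeff 5 f‖) := by
  obtain ⟨g, hg, hg2, hgn⟩ := rotate hf
  have hw0 : 0 ≤ ‖coeff 2 f‖ := norm_nonneg _
  set w := ‖coeff 2 f‖ with hw
  rw [← hgn 3, ← hgn 4, ← hgn 5]
  refine ⟨?_, ?_, fun h5 => ?_⟩
  · exact (low3 hg hg2).trans (Complex.re_le_norm _)
  · rcases le_or_gt 1 w with h | h
    · exact (low4 hg hg2 h).trans (Complex.re_le_norm _)
    · refine le_trans ?_ (norm_nonneg _)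
      nlinarith [mul_nonneg hw0 hw0]
  · rcases le_or_gt (5 / 2) (w ^ 2) with h | h
    · exact (low5 hg hg2 h).trans (Complex.re_le_norm _)
    · refine le_trans ?_ (norm_nonneg _)
      have h50 : 0 ≤ Real.sqrt 5 := Real.sqrt_nonneg 5
      have h51 : Real.sqrt 5 ^ 2 = 5 := Real.sq_sqrt (by norm_num)
      have h52 : 2 ≤ Real.sqrt 5 := by
        by_contra hc
        push Not at hc
        nlinarith
      have e : w ^ 4 - 3 * w ^ 2 + 1 =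
          -((w ^ 2 - (3 - Real.sqrt 5) / 2) * ((3 + Real.sqrt 5) / 2 - w ^ 2)) := by
        linear_combination (1 / 4) * h51
      rw [e]
      have : 0 ≤ (w ^ 2 - (3 - Real.sqrt 5) / 2) * ((3 + Real.sqrt 5) / 2 - w ^ 2) :=
        mul_nonneg (by linarith) (by linarith)
      linarith

/-- the linear inequalities -/
theorem linear {f : ℂ → ℂ} (hf : ClassS f) {n : ℕ} (h2 : 2 ≤ n) (h5 : n ≤ 5) :
    (n : ℝ) - ‖coeff n f‖ ≤ (n : ℝ) * ((n : ℝ) ^ 2 - 1) / 6 * (2 - ‖coeff 2 f‖) := by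
  obtain ⟨e3, e4, e5⟩ := lower hf
  have hw2 := bieb2 hf
  have hw0 : 0 ≤ ‖coeff 2 f‖ := norm_nonneg _
  have h50 : 0 ≤ ‖coeff 5 f‖ := norm_nonneg _
  obtain rfl | rfl | rfl | rfl : n = 2 ∨ n = 3 ∨ n = 4 ∨ n = 5 := by omega
  · set w := ‖coeff 2 f‖
    norm_num
  · set w := ‖coeff 2 f‖
    norm_num
    nlinarith [sq_nonneg (w - 2)]
  · set w := ‖coeff 2 f‖
    norm_num
    nlinarith [mul_nonneg (sq_nonneg (w - 2)) (by linarith : 0 ≤ w + 4)]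
  · set w := ‖coeff 2 f‖
    norm_num
    rcases le_or_gt w (7 / 4) with h | h
    · linarith
    · have h51 : Real.sqrt 5 ^ 2 = 5 := Real.sq_sqrt (by norm_num)
      have h52 : 2 ≤ Real.sqrt 5 := by
        by_contra hc
        push Not at hc
        nlinarith [Real.sqrt_nonneg 5]
      have h6 := e5 (by nlinarith)
      nlinarith [mul_nonneg (sq_nonneg (w - 2)) (by positivity : 0 ≤ w ^ 2 + 4 * w + 9)]

theorem optimal {n : ℕ} (h2 : 2 ≤ n) (h5 : n ≤ 5) {K : ℝ}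
    (hK : ∀ f : ℂ → ℂ, ClassS f → (n : ℝ) - ‖coeff n f‖ ≤ K * (2 - ‖coeff 2 f‖)) :
    (n : ℝ) * ((n : ℝ) ^ 2 - 1) / 6 ≤ K := by
  have hn2 : ∀ w : ℝ, 0 ≤ w → w ≤ 2 → ‖coeff 2 (fw w)‖ = w := by
    intro w h0 h1
    rw [(fw_coeffs h0 h1).1, Complex.norm_real, Real.norm_of_nonneg h0]
  have hn3 : ∀ w : ℝ, 1 ≤ w → w ≤ 2 → ‖coeff 3 (fw w)‖ = w ^ 2 - 1 := by
    intro w h0 h1
    have e : (w : ℂ) ^ 2 - 1 = ((w ^ 2 - 1 : ℝ) : ℂ) := by push_cast; ring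
    rw [(fw_coeffs (by linarith) h1).2.1, e, Complex.norm_real, Real.norm_of_nonneg (by nlinarith)]
  have hn4 : ∀ w : ℝ, 3 / 2 ≤ w → w ≤ 2 → ‖coeff 4 (fw w)‖ = w ^ 3 - 2 * w := by
    intro w h0 h1
    have e : (w : ℂ) ^ 3 - 2 * w = ((w ^ 3 - 2 * w : ℝ) : ℂ) := by push_cast; ring
    have h3 : 0 ≤ w * (w ^ 2 - 2) := mul_nonneg (by linarith) (by nlinarith)
    rw [(fw_coeffs (by linarith) h1).2.2.1, e, Complex.norm_real, Real.norm_of_nonneg (by nlinarith)]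
  have hn5 : ∀ w : ℝ, 7 / 4 ≤ w → w ≤ 2 → ‖coeff 5 (fw w)‖ = w ^ 4 - 3 * w ^ 2 + 1 := by
    intro w h0 h1
    have e : (w : ℂ) ^ 4 - 3 * w ^ 2 + 1 = ((w ^ 4 - 3 * w ^ 2 + 1 : ℝ) : ℂ) := by push_cast; ring
    have h3 : 3 ≤ w ^ 2 := by nlinarith
    rw [(fw_coeffs (by linarith) h1).2.2.2, e, Complex.norm_real, Real.norm_of_nonneg (by nlinarith)]
  have key : ∀ P : ℝ → ℝ, Continuous P →
      (∀ w : ℝ, 7 / 4 ≤ w → w < 2 → (n : ℝ) - ‖coeff n (fw w)‖ = (2 - w) * P w) →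
      P 2 ≤ K := by
    intro P hP hPe
    have ht := (hP.tendsto 2).mono_left (nhdsWithin_le_nhds (s := Iio (2 : ℝ)))
    refine le_of_tendsto ht ?_
    have hev : ∀ᶠ w in 𝓝[<] (2 : ℝ), w ∈ Ioo (7 / 4 : ℝ) 2 := Ioo_mem_nhdsLT (by norm_num)
    filter_upwards [hev] with w hw
    have h1 := hK (fw w) (fw_classS (by linarith [hw.1]) hw.2.le)
    rw [hPe w hw.1.le hw.2, hn2 w (by linarith [hw.1]) hw.2.le, mul_comm] at h1
    exact le_of_mul_le_mul_right h1 (by linarith [hw.2])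
  obtain rfl | rfl | rfl | rfl : n = 2 ∨ n = 3 ∨ n = 4 ∨ n = 5 := by omega
  · have h := key (fun _ => 1) continuous_const (by
      intro w h0 h1
      rw [hn2 w (by linarith) h1.le]
      norm_num)
    norm_num
    exact h
  · have h := key (fun w => 2 + w) (by fun_prop) (by
      intro w h0 h1
      rw [hn3 w (by linarith) h1.le]
      push_cast
      ring)
    norm_num at h ⊢
    linarith
  · have h := key (fun w => w ^ 2 + 2 * w + 2) (by fun_prop) (by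
      intro w h0 h1
      rw [hn4 w (by linarith) h1.le]
      push_cast
      ring)
    norm_num at h ⊢
    linarith
  · have h := key (fun w => (2 + w) * (1 + w ^ 2)) (by fun_prop) (by
      intro w h0 h1
      rw [hn5 w (by linarith) h1.le]
      push_cast
      ring)
    norm_num at h ⊢
    linarith

theorem main :
    (∀ f : ℂ → ℂ, ClassS f →
      ‖coeff 2 f‖ ^ 2 - 1 ≤ ‖coeff 3 f‖ ∧
      ‖coeff 2 f‖ ^ 3 - 2 * ‖coeff 2 f‖ ≤ ‖coeff 4 f‖ ∧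
      ((3 - Real.sqrt 5) / 2 ≤ ‖coeff 2 f‖ ^ 2 →
        ‖coeff 2 f‖ ^ 4 - 3 * ‖coeff 2 f‖ ^ 2 + 1 ≤ ‖coeff 5 f‖)) ∧
    (∀ w : ℝ, 0 ≤ w → w ≤ 2 → ∃ f : ℂ → ℂ, ClassS f ∧ coeff 2 f = (w : ℂ) ∧
      coeff 3 f = (w : ℂ) ^ 2 - 1 ∧ coeff 4 f = (w : ℂ) ^ 3 - 2 * w ∧
      coeff 5 f = (w : ℂ) ^ 4 - 3 * w ^ 2 + 1) ∧
    (∀ n : ℕ, 2 ≤ n → n ≤ 5 → ∀ K : ℝ,
      (∀ f : ℂ → ℂ, ClassS f → (n : ℝ) - ‖coeff n f‖ ≤ K * (2 - ‖coeff 2 f‖)) ↔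
        (n : ℝ) * ((n : ℝ) ^ 2 - 1) / 6 ≤ K) := by
  refine ⟨fun f hf => lower hf, fun w h0 h1 => ?_, fun n h2 h5 K => ⟨fun h => optimal h2 h5 h,
    fun h f hf => ?_⟩⟩
  · obtain ⟨a2, a3, a4, a5⟩ := fw_coeffs h0 h1
    exact ⟨fw w, fw_classS h0 h1, a2, a3, a4, a5⟩
  · have h3 := linear hf h2 h5
    have h4 : 0 ≤ 2 - ‖coeff 2 f‖ := by linarith [bieb2 hf]
    exact h3.trans (mul_le_mul_of_nonneg_right h h4)

end Pool.Agent.Helper32.DX
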