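import Pool.Agent.Helper32.DX.Rel

/-!
# DX: bounds and the chain principle for the first coefficients
-/

set_option autoImplicit false

open Metric Set Filter Topology
open scoped ComplexConjugate

namespace Pool.Agent.Helper32.DX

open Pool.Agent.Helper64.C3
open Pool.Agent.Helper39.QM

theorem coeff_le_of_bound {F : ℂ → ℂ} (hF : DifferentiableOn ℂ F (ball 0 1)) {M : ℝ}
    (hM : ∀ z : ℂ, ‖z‖ = 1 / 2 → ‖F z‖ ≤ M) (k : ℕ) : ‖coeff k F‖ ≤ M * 2 ^ k := by
  have h1 : DiffContOnCl ℂ F (ball 0 (1 / 2)) := by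
    apply DifferentiableOn.diffContOnCl
    rw [closure_ball (0 : ℂ) (by norm_num)]
    exact hF.mono (closedBall_subset_ball (by norm_num))
  have h2 := Complex.norm_iteratedDeriv_le_of_forall_mem_sphere_norm_le k (by norm_num) h1
    (C := M) (fun z hz => hM z (by simpa using hz))
  unfold coeff
  rw [norm_div, Complex.norm_natCast, div_le_iff₀ (by exact_mod_cast k.factorial_pos)]
  refine h2.trans (le_of_eq ?_)
  rw [one_div, inv_pow, div_inv_eq_mul]
  ring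

theorem coeff_self_le {h : ℂ → ℂ} (hh : SelfMap h) (k : ℕ) : ‖coeff k h‖ ≤ 2 ^ k := by
  have := coeff_le_of_bound hh.1 (M := 1) (fun z hz => by
    have h1 : z ∈ ball (0 : ℂ) 1 := by rw [mem_ball_zero_iff, hz]; norm_num
    have h2 := hh.2.1 h1
    rw [mem_ball_zero_iff] at h2
    exact h2.le) k
  linarith

theorem coeff_near {h : ℂ → ℂ} (hh : SelfMap h) {p : ℝ} (hp0 : 0 < p) (hp1 : p ≤ 1)
    (hder : deriv h 0 = (p : ℂ)) {k : ℕ} (hk : 2 ≤ k) : ‖coeff k h‖ ≤ 6 * (1 - p) * 2 ^ k := by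
  have h1 : DifferentiableOn ℂ (fun z : ℂ => 1 * z) (ball 0 1) := by fun_prop
  have h2 : DifferentiableOn ℂ (fun z : ℂ => h z - 1 * z) (ball 0 1) := hh.1.sub h1
  have h3 := coeff_le_of_bound h2 (M := 6 * (1 - p)) (fun z hz => by
    have h4 := near_id hh hp0 hp1 hder (z := z) (by rw [hz]; norm_num)
    rw [hz] at h4
    rw [one_mul]
    refine h4.trans (le_of_eq ?_)
    norm_num
    ring) k
  rw [coeff_sub hh.1 h1, coeff_lin, if_neg (by omega), sub_zero] at h3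
  exact h3

/-- the coefficients of `AA` are small near the identity -/
theorem ac_small {h : ℂ → ℂ} (hh : SelfMap h) (hi : InjOn h (ball 0 1)) {p η : ℝ}
    (hder : deriv h 0 = (p : ℂ)) (hη : η ≤ 1 / 20000) (hpη : 1 - η ≤ p) (hp1 : p ≤ 1) :
    ‖ac 1 h‖ ≤ 600 * η ∧ ‖ac 2 h‖ ≤ 600 * η ∧ ‖ac 3 h‖ ≤ 600 * η ∧ ‖ac 4 h‖ ≤ 600 * η := by
  have hp0 : 0 < p := by linarith
  have hη0 : 0 ≤ η := by linarith
  have hpC : (p : ℂ) ≠ 0 := by exact_mod_cast hp0.ne'
  have h1 : deriv h 0 ≠ 0 := by rw [hder]; exact hpC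
  obtain ⟨r2, r3, r4, r5⟩ := ac_rel hh hi h1
  rw [hder] at r2 r3 r4 r5
  have hpn : ‖(p : ℂ)‖ = p := by rw [Complex.norm_real, Real.norm_of_nonneg hp0.le]
  set w := 192 * η with hw
  have b : ∀ k : ℕ, 2 ≤ k → k ≤ 5 → ‖coeff k h‖ ≤ w := by
    intro k hk hk5
    have b1 := coeff_near hh hp0 hp1 hder hk
    have b2 : (2 : ℝ) ^ k ≤ 2 ^ 5 := pow_le_pow_right₀ (by norm_num) hk5
    have b3 : 6 * (1 - p) * 2 ^ k ≤ 6 * (1 - p) * 2 ^ 5 :=
      mul_le_mul_of_nonneg_left b2 (by linarith)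
    rw [hw]
    linarith
  have hwle : w ≤ 1 / 100 := by rw [hw]; linarith
  have hw0 : 0 ≤ w := by rw [hw]; linarith
  have hp2 : 1 / 2 ≤ p := by linarith
  have div_bd : ∀ (X Y : ℂ) (c : ℝ), 0 ≤ c → Y * p = X → ‖X‖ ≤ c → ‖Y‖ ≤ 2 * c := by
    intro X Y c hc hXY hX
    rw [← hXY, norm_mul, hpn] at hX
    nlinarith [norm_nonneg Y]
  have n1 : ‖ac 1 h‖ ≤ 2 * w := div_bd (-(coeff 2 h)) _ w hw0 (by linear_combination r2)
    (by rw [norm_neg]; exact b 2 (by omega) (by omega))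
  have n2a : ‖ac 2 h - ac 1 h ^ 2‖ ≤ 2 * w := div_bd (-(coeff 3 h)) _ w hw0
    (by linear_combination r3) (by rw [norm_neg]; exact b 3 (by omega) (by omega))
  have n2 : ‖ac 2 h‖ ≤ 3 * w := by
    have : ac 2 h = (ac 2 h - ac 1 h ^ 2) + ac 1 h ^ 2 := by ring
    rw [this]
    refine (norm_add_le _ _).trans ?_
    rw [norm_pow]
    nlinarith [norm_nonneg (ac 1 h)]
  have n3a : ‖ac 1 h ^ 3 - 2 * ac 1 h * ac 2 h + ac 3 h‖ ≤ 2 * w := div_bd (-(coeff 4 h)) _ w hw0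
    (by linear_combination r4) (by rw [norm_neg]; exact b 4 (by omega) (by omega))
  have m12 : ‖ac 1 h‖ * ‖ac 2 h‖ ≤ 2 * w * (3 * w) :=
    mul_le_mul n1 n2 (norm_nonneg _) (by linarith)
  have m111 : ‖ac 1 h‖ ^ 3 ≤ (2 * w) ^ 3 := pow_le_pow_left₀ (norm_nonneg _) n1 3
  have n3 : ‖ac 3 h‖ ≤ 3 * w := by
    have : ac 3 h = (ac 1 h ^ 3 - 2 * ac 1 h * ac 2 h + ac 3 h) + (-(ac 1 h ^ 3)
      + 2 * (ac 1 h * ac 2 h)) := by ring
    rw [this]
    refine (norm_add_le _ _).trans ?_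
    have h2 : ‖-(ac 1 h ^ 3) + 2 * (ac 1 h * ac 2 h)‖ ≤ ‖ac 1 h‖ ^ 3 + 2 * (‖ac 1 h‖ * ‖ac 2 h‖) := by
      refine (norm_add_le _ _).trans ?_
      rw [norm_neg, norm_pow, norm_mul, norm_mul]
      norm_num
    have h3 : w ^ 2 ≤ w * (1 / 100) := by nlinarith
    have h4 : w ^ 3 ≤ w * (1 / 10000) := by nlinarith
    nlinarith
  have n4 : ‖ac 4 h‖ ≤ 3 * w := by
    have hX : ‖-(coeff 5 h + ac 1 h * coeff 4 h + ac 2 h * coeff 3 h + ac 3 h * coeff 2 h)‖
        ≤ w + 2 * w * w + 3 * w * w + 3 * w * w := by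
      rw [norm_neg]
      refine (norm_add_le _ _).trans (add_le_add ((norm_add_le _ _).trans
        (add_le_add ((norm_add_le _ _).trans (add_le_add (b 5 (by omega) (by omega)) ?_)) ?_)) ?_)
      · rw [norm_mul]
        exact mul_le_mul n1 (b 4 (by omega) (by omega)) (norm_nonneg _) (by linarith)
      · rw [norm_mul]
        exact mul_le_mul n2 (b 3 (by omega) (by omega)) (norm_nonneg _) (by linarith)
      · rw [norm_mul]
        exact mul_le_mul n3 (b 2 (by omega) (by omega)) (norm_nonneg _) (by linarith)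
    have := div_bd _ _ _ (by positivity) r5 hX
    nlinarith
  refine ⟨?_, ?_, ?_, ?_⟩
  all_goals rw [hw] at *
  all_goals linarith

/-- crude bounds for the coefficients of `AA` -/
theorem ac_bound {α : ℝ} (hα : 0 < α) : ∃ K : ℝ, 0 < K ∧ ∀ (h : ℂ → ℂ) (u : ℝ), SelfMap h →
    InjOn h (ball 0 1) → deriv h 0 = (u : ℂ) → α ≤ u → u ≤ 1 →
    ‖ac 1 h‖ ≤ K ∧ ‖ac 2 h‖ ≤ K ∧ ‖ac 3 h‖ ≤ K ∧ ‖ac 4 h‖ ≤ K := by
  set K1 := 4 / α with hK1
  set K2 := 8 / α + K1 ^ 2 with hK2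
  set K3 := 16 / α + (K1 ^ 3 + 2 * (K1 * K2)) with hK3
  set K4 := (32 + K1 * 16 + K2 * 8 + K3 * 4) / α with hK4
  have p1 : 0 < K1 := by positivity
  have p2 : 0 < K2 := by positivity
  have p3 : 0 < K3 := by positivity
  have p4 : 0 < K4 := by positivity
  refine ⟨K1 + K2 + K3 + K4, by positivity, ?_⟩
  intro h u hh hi hder hαu hu1
  have hu0 : 0 < u := by linarith
  have huC : (u : ℂ) ≠ 0 := by exact_mod_cast hu0.ne'
  have h1 : deriv h 0 ≠ 0 := by rw [hder]; exact huC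
  obtain ⟨r2, r3, r4, r5⟩ := ac_rel hh hi h1
  rw [hder] at r2 r3 r4 r5
  have hun : ‖(u : ℂ)‖ = u := by rw [Complex.norm_real, Real.norm_of_nonneg hu0.le]
  have div_bd : ∀ (X Y : ℂ) (c : ℝ), Y * u = X → ‖X‖ ≤ c → ‖Y‖ ≤ c / α := by
    intro X Y c hXY hX
    rw [← hXY, norm_mul, hun] at hX
    rw [le_div_iff₀ hα]
    nlinarith [norm_nonneg Y]
  have b2 := coeff_self_le hh 2
  have b3 := coeff_self_le hh 3
  have b4 := coeff_self_le hh 4
  have b5 := coeff_self_le hh 5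
  norm_num at b2 b3 b4 b5
  have n1 : ‖ac 1 h‖ ≤ K1 := div_bd (-(coeff 2 h)) _ 4 (by linear_combination r2)
    (by rw [norm_neg]; exact b2)
  have n2a : ‖ac 2 h - ac 1 h ^ 2‖ ≤ 8 / α := div_bd (-(coeff 3 h)) _ 8
    (by linear_combination r3) (by rw [norm_neg]; exact b3)
  have n2 : ‖ac 2 h‖ ≤ K2 := by
    have : ac 2 h = (ac 2 h - ac 1 h ^ 2) + ac 1 h ^ 2 := by ring
    rw [this]
    refine (norm_add_le _ _).trans (add_le_add n2a ?_)
    rw [norm_pow]
    exact pow_le_pow_left₀ (norm_nonneg _) n1 2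
  have n3a : ‖ac 1 h ^ 3 - 2 * ac 1 h * ac 2 h + ac 3 h‖ ≤ 16 / α := div_bd (-(coeff 4 h)) _ 16
    (by linear_combination r4) (by rw [norm_neg]; exact b4)
  have n3 : ‖ac 3 h‖ ≤ K3 := by
    have : ac 3 h = (ac 1 h ^ 3 - 2 * ac 1 h * ac 2 h + ac 3 h) + (-(ac 1 h ^ 3)
      + 2 * (ac 1 h * ac 2 h)) := by ring
    rw [this]
    refine (norm_add_le _ _).trans (add_le_add n3a ((norm_add_le _ _).trans (add_le_add ?_ ?_)))
    · rw [norm_neg, norm_pow]
      exact pow_le_pow_left₀ (norm_nonneg _) n1 3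
    · rw [norm_mul, norm_mul]
      norm_num
      exact mul_le_mul n1 n2 (norm_nonneg _) p1.le
  have n4 : ‖ac 4 h‖ ≤ K4 := by
    apply div_bd _ _ _ r5
    rw [norm_neg]
    refine (norm_add_le _ _).trans (add_le_add ((norm_add_le _ _).trans
      (add_le_add ((norm_add_le _ _).trans (add_le_add b5 ?_)) ?_)) ?_)
    · rw [norm_mul]
      exact mul_le_mul n1 b4 (norm_nonneg _) p1.le
    · rw [norm_mul]
      exact mul_le_mul n2 b3 (norm_nonneg _) p2.le
    · rw [norm_mul]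
      exact mul_le_mul n3 b2 (norm_nonneg _) p3.le
  refine ⟨?_, ?_, ?_, ?_⟩ <;> linarith

theorem ac_congr {H H' : ℂ → ℂ} (h : EqOn H H' (ball 0 1)) (k : ℕ) : ac k H = ac k H' := by
  have hn : ball (0 : ℂ) 1 ∈ 𝓝 (0 : ℂ) := isOpen_ball.mem_nhds (by simp)
  have hd : deriv H 0 = deriv H' 0 := by
    apply Filter.EventuallyEq.deriv_eq
    filter_upwards [hn] with z hz
    exact h hz
  apply coeff_congr
  intro z hz
  unfold AA
  rw [hd]
  congr 1
  rcases eq_or_ne z 0 with rfl | hz0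
  · rw [dslope_same, dslope_same, hd]
  · rw [dslope_of_ne _ hz0, dslope_of_ne _ hz0, slope_def_field, slope_def_field, h hz,
      h (show (0 : ℂ) ∈ ball (0 : ℂ) 1 by simp)]

theorem deriv_congr {H H' : ℂ → ℂ} (h : EqOn H H' (ball 0 1)) : deriv H 0 = deriv H' 0 := by
  have hn : ball (0 : ℂ) 1 ∈ 𝓝 (0 : ℂ) := isOpen_ball.mem_nhds (by simp)
  apply Filter.EventuallyEq.deriv_eq
  filter_upwards [hn] with z hz
  exact h hz

/-- Pick's inequality for the second coefficient -/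
theorem pick_ineq {h : ℂ → ℂ} {α : ℝ} (hα : 0 < α) (hh : SelfMap h) (hi : InjOn h (ball 0 1))
    (hder : deriv h 0 = (α : ℂ)) : ‖ac 1 h‖ ≤ 2 * (1 - α) := by
  have key : ∀ ω : ℂ, ‖ω‖ = 1 → 0 ≤ 2 * (1 - (deriv h 0).re) - (ω * ac 1 h).re := by
    intro ω hω
    apply chain_principle (fun H => 2 * (1 - (deriv H 0).re) - (ω * ac 1 H).re) ?_ ?_ ?_ hα hh hi hder
    · intro H H' hHH
      simp only [ac_congr hHH, deriv_congr hHH]
    · intro ε hε
      refine ⟨min (1 / 20000) (ε / 600), by positivity, ?_⟩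
      intro H p hH hHi hHd hp hp1
      have h1 := (ac_small hH hHi hHd (min_le_left _ _) hp hp1).1
      have h2 : 600 * min (1 / 20000) (ε / 600) ≤ ε := by
        have := min_le_right (1 / 20000) (ε / 600)
        linarith
      have h3 : (ω * ac 1 H).re ≤ ‖ω * ac 1 H‖ := Complex.re_le_norm _
      rw [norm_mul, hω, one_mul] at h3
      simp only [hHd, Complex.ofReal_re]
      linarith
    · intro α' hα'
      refine ⟨2, by norm_num, ?_⟩
      intro q χ H H' u hq hq1 hχ hH hHi hHd hu hu1 hH' hHi' hk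
      obtain ⟨s0, s1, -, -, -⟩ := ac_step (by linarith) hq1.le hχ hH hHi (by linarith : u ≠ 0) hHd
        hH' hHi' hk
      simp only [s0, s1, hHd, Complex.ofReal_re]
      have hq0 : 0 < q := by linarith
      have h4 : (ω * (ac 1 H + (1 - (q : ℂ) ^ 2) / q * (χ * u))).re
          = (ω * ac 1 H).re + (1 - q ^ 2) / q * u * (ω * χ).re := by
        have : ω * (ac 1 H + (1 - (q : ℂ) ^ 2) / q * (χ * u))
            = ω * ac 1 H + (((1 - q ^ 2) / q * u : ℝ) : ℂ) * (ω * χ) := by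
          push_cast; ring
        rw [this, Complex.add_re, Complex.re_ofReal_mul]
      rw [h4]
      have h5 : (ω * χ).re ≤ 1 := by
        have := Complex.re_le_norm (ω * χ)
        rwa [norm_mul, hω, hχ, one_mul] at this
      have h6 : 0 ≤ (1 - q ^ 2) / q * u := by
        have : 0 ≤ 1 - q ^ 2 := by nlinarith
        have : 0 ≤ u := by linarith
        positivity
      have h7 : (1 - q ^ 2) / q * u * (ω * χ).re ≤ (1 - q ^ 2) / q * u := by
        nlinarith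
      have h8 : (1 - q ^ 2) / q * u = 2 * (1 - q) * u + (1 - q) ^ 2 * (u / q) := by
        field_simp
        ring
      have h9 : u / q ≤ 2 := by
        rw [div_le_iff₀ hq0]; linarith
      have h10 : (1 - q) ^ 2 * (u / q) ≤ (1 - q) ^ 2 * 2 :=
        mul_le_mul_of_nonneg_left h9 (sq_nonneg _)
      nlinarith
  rcases eq_or_ne (ac 1 h) 0 with h0 | h0
  · rw [h0, norm_zero]
    have := deriv_le_one hh hα hder
    linarith
  · have hn : (‖ac 1 h‖ : ℂ) ≠ 0 := by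
      have := norm_ne_zero_iff.2 h0
      exact_mod_cast this
    have h1 := key (conj (ac 1 h) / ‖ac 1 h‖) (by
      rw [norm_div, RCLike.norm_conj, Complex.norm_real, norm_norm, div_self]
      exact norm_ne_zero_iff.2 h0)
    have h2 : conj (ac 1 h) / ‖ac 1 h‖ * ac 1 h = ((‖ac 1 h‖ : ℝ) : ℂ) := by
      rw [div_mul_eq_mul_div, mul_comm, Complex.mul_conj, Complex.normSq_eq_norm_sq, div_eq_iff hn]
      push_cast; ring
    rw [h2, Complex.ofReal_re, hder, Complex.ofReal_re] at h1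
    linarith

end Pool.Agent.Helper32.DX
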