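import Pool.Agent.Helper32.DX.Chain

/-!
# DX: coefficient relations
-/

set_option autoImplicit false

open Metric Set Filter Topology
open scoped ComplexConjugate

namespace Pool.Agent.Helper32.DX

open Pool.Agent.Helper64.C3
open Pool.Agent.Helper39.QM

/-- coefficients of `AA` -/
noncomputable def ac (k : ℕ) (h : ℂ → ℂ) : ℂ := coeff k (AA h)

theorem coeff_lin (c : ℂ) (n : ℕ) : coeff n (fun z : ℂ => c * z) = if n = 1 then c else 0 := by
  rcases n with _ | _ | n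
  · simp [coeff]
  · rw [if_pos rfl, coeff_one]
    have h : HasDerivAt (fun z : ℂ => c * z) (c * 1) 0 := (hasDerivAt_id (0 : ℂ)).const_mul c
    rw [h.deriv, mul_one]
  · rw [if_neg (by omega)]
    unfold coeff
    rw [iteratedDeriv_succ']
    have h : deriv (fun z : ℂ => c * z) = fun _ => c := by
      funext z
      have h : HasDerivAt (fun z : ℂ => c * z) (c * 1) z := (hasDerivAt_id z).const_mul c
      rw [h.deriv, mul_one]
    rw [h, iteratedDeriv_const, if_neg (by omega), zero_div]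

theorem coeff_cmul {F : ℂ → ℂ} (c : ℂ) (n : ℕ) :
    coeff n (fun z => c * F z) = c * coeff n F := by
  unfold coeff
  rw [iteratedDeriv_const_mul_field, mul_div_assoc]

theorem ac_zero {h : ℂ → ℂ} (h1 : deriv h 0 ≠ 0) : ac 0 h = 1 := by
  rw [ac, coeff_zero, AA_zero h1]

theorem coeff_zero_self {h : ℂ → ℂ} (hh : SelfMap h) : coeff 0 h = 0 := by
  rw [coeff_zero, hh.2.2]

/-- `A h = u z` in coefficients -/
theorem rel_AH {h : ℂ → ℂ} (hh : SelfMap h) (hi : InjOn h (ball 0 1)) (h1 : deriv h 0 ≠ 0)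
    (n : ℕ) : ∑ i ∈ Finset.range (n + 1), ac i h * coeff (n - i) h
      = if n = 1 then deriv h 0 else 0 := by
  rw [← coeff_lin (deriv h 0) n, ← coeff_congr (fun z hz => AA_mul hh hi h1 hz) n,
    coeff_mul (AA_diff hh hi h1) hh.1]
  rfl

theorem ac_rel {h : ℂ → ℂ} (hh : SelfMap h) (hi : InjOn h (ball 0 1)) (h1 : deriv h 0 ≠ 0) :
    coeff 2 h = -(deriv h 0 * ac 1 h) ∧
    coeff 3 h = deriv h 0 * (ac 1 h ^ 2 - ac 2 h) ∧
    coeff 4 h = -(deriv h 0 * (ac 1 h ^ 3 - 2 * ac 1 h * ac 2 h + ac 3 h)) ∧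
    ac 4 h * deriv h 0 = -(coeff 5 h + ac 1 h * coeff 4 h + ac 2 h * coeff 3 h
      + ac 3 h * coeff 2 h) := by
  have a0 := ac_zero h1
  have w0 := coeff_zero_self hh
  have w1 : coeff 1 h = deriv h 0 := coeff_one h
  have e2 := rel_AH hh hi h1 2
  have e3 := rel_AH hh hi h1 3
  have e4 := rel_AH hh hi h1 4
  have e5 := rel_AH hh hi h1 5
  simp only [Finset.sum_range_succ, Finset.sum_range_zero, Nat.sub_zero, Nat.sub_self,
    Nat.reduceSub, a0, w0, w1, if_neg (show ¬ (2 = 1) by omega), if_neg (show ¬ (3 = 1) by omega),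
    if_neg (show ¬ (4 = 1) by omega), if_neg (show ¬ (5 = 1) by omega)] at e2 e3 e4 e5
  have f2 : coeff 2 h = -(deriv h 0 * ac 1 h) := by linear_combination e2
  have f3 : coeff 3 h = deriv h 0 * (ac 1 h ^ 2 - ac 2 h) := by
    linear_combination e3 - ac 1 h * f2
  have f4 : coeff 4 h = -(deriv h 0 * (ac 1 h ^ 3 - 2 * ac 1 h * ac 2 h + ac 3 h)) := by
    linear_combination e4 - ac 1 h * f3 - ac 2 h * f2
  refine ⟨f2, f3, f4, ?_⟩
  linear_combination e5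

/-- the step in coefficients -/
theorem ac_step {q : ℝ} (hq0 : 0 < q) (hq1 : q ≤ 1) {χ : ℂ} (hχ : ‖χ‖ = 1) {H H' : ℂ → ℂ}
    (hh : SelfMap H) (hi : InjOn H (ball 0 1)) {u : ℝ} (hu : u ≠ 0) (hder : deriv H 0 = (u : ℂ))
    (hh' : SelfMap H')
    (hi' : InjOn H' (ball 0 1)) (hk : ∀ z ∈ ball (0 : ℂ) 1, H' z = kst q χ (H z)) :
    deriv H' 0 = ((q * u : ℝ) : ℂ) ∧
    ac 1 H' = ac 1 H + (1 - q ^ 2) / q * (χ * u) ∧
    ac 2 H' = ac 2 H + (1 - q ^ 2) / q ^ 2 * (χ ^ 2 * u ^ 2) ∧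
    ac 3 H' = ac 3 H + u ^ 2 * ((1 - q ^ 2) / q ^ 2 * (-(χ ^ 2 * ac 1 H))
      + (1 - q ^ 2) / q ^ 3 * (χ ^ 3 * u)) ∧
    ac 4 H' = ac 4 H + u ^ 2 * ((1 - q ^ 2) / q ^ 2 * (χ ^ 2 * (ac 1 H ^ 2 - ac 2 H))
      - (1 - q ^ 2) / q ^ 3 * (2 * u * (χ ^ 3 * ac 1 H))
      + (1 - q ^ 2) / q ^ 4 * (χ ^ 4 * u ^ 2)) := by
  have hqC : (q : ℂ) ≠ 0 := by exact_mod_cast hq0.ne'
  have huC : (u : ℂ) ≠ 0 := by exact_mod_cast hu
  have h1 : deriv H 0 ≠ 0 := by rw [hder]; exact huC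
  have hd : deriv H' 0 = q * deriv H 0 := deriv_kst hh hk
  have hd0 : deriv H' 0 ≠ 0 := by rw [hd]; exact mul_ne_zero hqC h1
  have hA := AA_diff hh hi h1
  have hA' := AA_diff hh' hi' hd0
  have hL : DifferentiableOn ℂ (fun z => (q : ℂ) - χ * H z) (ball 0 1) :=
    (hh.1.const_mul χ).const_sub _
  have hR : DifferentiableOn ℂ (fun z => 1 - q * χ * H z) (ball 0 1) :=
    (hh.1.const_mul _).const_sub _
  have cL : ∀ n : ℕ, coeff n (fun z => (q : ℂ) - χ * H z)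
      = (if n = 0 then (q : ℂ) else 0) - χ * coeff n H := by
    intro n
    rw [coeff_sub (differentiableOn_const _) (hh.1.const_mul χ), coeff_const, coeff_cmul]
  have cR : ∀ n : ℕ, coeff n (fun z => 1 - q * χ * H z)
      = (if n = 0 then (1 : ℂ) else 0) - q * χ * coeff n H := by
    intro n
    rw [coeff_sub (differentiableOn_const _) (hh.1.const_mul _), coeff_const, coeff_cmul]
  have hrel : ∀ n : ℕ, ∑ i ∈ Finset.range (n + 1), ac i H' * ((if n - i = 0 then (q : ℂ) else 0)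
      - χ * coeff (n - i) H)
      = q * ∑ i ∈ Finset.range (n + 1), ac i H * ((if n - i = 0 then (1 : ℂ) else 0)
      - q * χ * coeff (n - i) H) := by
    intro n
    have e1 := coeff_congr (F := fun z => AA H' z * ((q : ℂ) - χ * H z))
      (G := fun z => (q : ℂ) * (AA H z * (1 - q * χ * H z)))
      (fun z hz => AA_step hq0 hq1 hχ hh hi h1 hh' hi' hk hz) n
    rw [coeff_mul hA' hL, coeff_cmul, coeff_mul hA hR] at e1
    simp only [cL, cR] at e1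
    exact e1
  obtain ⟨r2, r3, r4, -⟩ := ac_rel hh hi h1
  have w0 := coeff_zero_self hh
  have w1 : coeff 1 H = (u : ℂ) := by rw [coeff_one, hder]
  have a0 := ac_zero h1
  have a0' := ac_zero hd0
  rw [hder] at r2 r3 r4
  have e1 := hrel 1
  have e2 := hrel 2
  have e3 := hrel 3
  have e4 := hrel 4
  simp only [Finset.sum_range_succ, Finset.sum_range_zero, Nat.sub_zero, Nat.sub_self,
    Nat.reduceSub, a0, a0', w0, w1, if_true, if_neg (show ¬ (1 = 0) by omega),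
    if_neg (show ¬ (2 = 0) by omega), if_neg (show ¬ (3 = 0) by omega),
    if_neg (show ¬ (4 = 0) by omega)] at e1 e2 e3 e4
  have g1 : (q : ℂ) * ac 1 H' = q * ac 1 H + (1 - q ^ 2) * (χ * u) := by
    linear_combination e1
  have g2 : (q : ℂ) ^ 2 * ac 2 H' = q ^ 2 * ac 2 H + (1 - q ^ 2) * (χ ^ 2 * u ^ 2) := by
    linear_combination (q : ℂ) * e2 + χ * u * g1 + q * χ * (1 - q ^ 2) * r2
  have g3 : (q : ℂ) ^ 3 * ac 3 H' = q ^ 3 * ac 3 H + u ^ 2 * ((1 - q ^ 2) * q * (-(χ ^ 2 * ac 1 H))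
      + (1 - q ^ 2) * (χ ^ 3 * u)) := by
    linear_combination (q : ℂ) ^ 2 * e3 + q * χ * coeff 2 H * g1 + χ * u * g2
      + q ^ 2 * χ * (1 - q ^ 2) * r3
      + (q ^ 2 * χ * ac 1 H * (1 - q ^ 2) + q * χ ^ 2 * u * (1 - q ^ 2)) * r2
  have g4 : (q : ℂ) ^ 4 * ac 4 H' = q ^ 4 * ac 4 H
      + u ^ 2 * ((1 - q ^ 2) * q ^ 2 * (χ ^ 2 * (ac 1 H ^ 2 - ac 2 H))
      - (1 - q ^ 2) * q * (2 * u * (χ ^ 3 * ac 1 H)) + (1 - q ^ 2) * (χ ^ 4 * u ^ 2)) := by
    linear_combination (q : ℂ) ^ 3 * e4 + q ^ 2 * χ * coeff 3 H * g1 + q * χ * coeff 2 H * g2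
      + χ * u * g3 + q ^ 3 * χ * (1 - q ^ 2) * r4
      + (q ^ 3 * χ * ac 1 H * (1 - q ^ 2) + q ^ 2 * χ ^ 2 * u * (1 - q ^ 2)) * r3
      + (q ^ 3 * χ * ac 2 H * (1 - q ^ 2) + q * χ ^ 3 * u ^ 2 * (1 - q ^ 2)) * r2
  refine ⟨?_, ?_, ?_, ?_, ?_⟩
  · rw [hd, hder]; push_cast; ring
  · apply mul_left_cancel₀ hqC
    rw [g1]
    field_simp
  · apply mul_left_cancel₀ (pow_ne_zero 2 hqC)
    rw [g2]
    field_simp
  · apply mul_left_cancel₀ (pow_ne_zero 3 hqC)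
    rw [g3]
    field_simp
  · apply mul_left_cancel₀ (pow_ne_zero 4 hqC)
    rw [g4]
    field_simp

end Pool.Agent.Helper32.DX
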