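import Pool.Agent.Helper32.DX.Fin
import Pool.Agent.Helper39.QM.Basic

/-!
# DX: lower bounds for `|a₃|`, `|a₄|`, `|a₅|` in terms of `|a₂|`
-/

set_option autoImplicit false

open Metric Set Filter Topology
open scoped ComplexConjugate

namespace Pool.Agent.Helper32.DX

open Pool.Agent.Helper64.C3
open Pool.Agent.Helper39.QM

/-- the first row of the Grunsky matrix -/
theorem row_le {f : ℂ → ℂ} (hf : ClassS f) :
    Complex.normSq (B1 f) + 2 * Complex.normSq (B2 f) ≤ 1 := by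
  have h1 := grunsky_S hf (1 + conj (B1 f)) (2 * conj (B2 f))
  have h2 := grunsky_S hf (Complex.I * (1 - conj (B1 f))) (-(2 * Complex.I * conj (B2 f)))
  unfold QG at h1 h2
  set b1 := B1 f
  set b2 := B2 f
  set b3 := B3 f
  have e1 : ((1 + conj b1) ^ 2 * b1 + 2 * (1 + conj b1) * (2 * conj b2) * b2
      + (2 * conj b2) ^ 2 * (b3 + b1 ^ 2 / 2)).re
      + ((Complex.I * (1 - conj b1)) ^ 2 * b1
      + 2 * (Complex.I * (1 - conj b1)) * (-(2 * Complex.I * conj b2)) * b2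
      + (-(2 * Complex.I * conj b2)) ^ 2 * (b3 + b1 ^ 2 / 2)).re
      = 4 * Complex.normSq b1 + 8 * Complex.normSq b2 := by
    have hI : Complex.I ^ 2 = -1 := Complex.I_sq
    have e0 : ((1 + conj b1) ^ 2 * b1 + 2 * (1 + conj b1) * (2 * conj b2) * b2
      + (2 * conj b2) ^ 2 * (b3 + b1 ^ 2 / 2))
      + ((Complex.I * (1 - conj b1)) ^ 2 * b1
      + 2 * (Complex.I * (1 - conj b1)) * (-(2 * Complex.I * conj b2)) * b2
      + (-(2 * Complex.I * conj b2)) ^ 2 * (b3 + b1 ^ 2 / 2))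
      = 4 * (b1 * conj b1) + 8 * (b2 * conj b2) := by
      linear_combination ((1 - conj b1) ^ 2 * b1 - 4 * (1 - conj b1) * conj b2 * b2
        + 4 * conj b2 ^ 2 * (b3 + b1 ^ 2 / 2)) * hI
    rw [← Complex.add_re, e0, Complex.mul_conj, Complex.mul_conj]
    norm_cast
  have e2 : Complex.normSq (1 + conj b1) + Complex.normSq (2 * conj b2) / 2
      + (Complex.normSq (Complex.I * (1 - conj b1)) + Complex.normSq (-(2 * Complex.I * conj b2)) / 2)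
      = 2 + 2 * Complex.normSq b1 + 4 * Complex.normSq b2 := by
    rw [Complex.normSq_neg]
    simp only [Complex.normSq_mul, Complex.normSq_I, Complex.normSq_conj, one_mul]
    rw [Complex.normSq_apply (1 + conj b1), Complex.normSq_apply (1 - conj b1),
      Complex.normSq_apply b1]
    have h22 : Complex.normSq 2 = 4 := by
      rw [Complex.normSq_apply]; norm_num
    rw [h22]
    simp
    ring
  linarith

theorem B1_re_le {f : ℂ → ℂ} (hf : ClassS f) : (B1 f).re ≤ 1 := by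
  have h1 := row_le hf
  rw [Complex.normSq_apply] at h1
  have h2 := Complex.normSq_nonneg (B2 f)
  nlinarith [mul_self_nonneg (B1 f).im, sq_nonneg ((B1 f).re - 1)]

/-- the form of the coefficients with real `a₂` -/
theorem coeffs_of_real {f : ℂ → ℂ} {w : ℝ} (hw : coeff 2 f = (w : ℂ)) :
    coeff 3 f = (w : ℂ) ^ 2 - B1 f ∧
    coeff 4 f = (w : ℂ) ^ 3 - 2 * w * B1 f - B2 f ∧
    coeff 5 f = (w : ℂ) ^ 4 - 3 * w ^ 2 * B1 f - 2 * w * B2 f + B1 f ^ 2 - B3 f := by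
  have h3 : coeff 3 f = (w : ℂ) ^ 2 - B1 f := by
    unfold B1
    rw [hw]
    ring
  have h4 : coeff 4 f = (w : ℂ) ^ 3 - 2 * w * B1 f - B2 f := by
    have : B2 f = 2 * w * coeff 3 f - coeff 4 f - w ^ 3 := by unfold B2; rw [hw]
    rw [this, h3]
    ring
  refine ⟨h3, h4, ?_⟩
  have : B3 f = w * coeff 4 f - B1 f * coeff 3 f - B2 f * w - coeff 5 f := by unfold B3; rw [hw]
  rw [this, h4, h3]
  ring

theorem low3 {f : ℂ → ℂ} (hf : ClassS f) {w : ℝ} (hw : coeff 2 f = (w : ℂ)) :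
    w ^ 2 - 1 ≤ (coeff 3 f).re := by
  rw [(coeffs_of_real hw).1]
  have h1 := B1_re_le hf
  have e : ((w : ℂ) ^ 2 - B1 f).re = w ^ 2 - (B1 f).re := by
    rw [Complex.sub_re]
    norm_cast
  rw [e]
  linarith

theorem low4 {f : ℂ → ℂ} (hf : ClassS f) {w : ℝ} (hw : coeff 2 f = (w : ℂ)) (h1w : 1 ≤ w) :
    w ^ 3 - 2 * w ≤ (coeff 4 f).re := by
  rw [(coeffs_of_real hw).2.1]
  have h1 := B1_re_le hf
  have h2 := jenkins_S hf
  have e : ((w : ℂ) ^ 3 - 2 * w * B1 f - B2 f).re = w ^ 3 - 2 * w * (B1 f).re - (B2 f).re := by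
    rw [Complex.sub_re, Complex.sub_re]
    have : (2 : ℂ) * w * B1 f = ((2 * w : ℝ) : ℂ) * B1 f := by push_cast; ring
    rw [this, Complex.re_ofReal_mul]
    norm_cast
  have e2 : (2 * B1 f + B2 f).re = 2 * (B1 f).re + (B2 f).re := by
    simp
  rw [e]
  rw [e2] at h2
  nlinarith

theorem low5 {f : ℂ → ℂ} (hf : ClassS f) {w : ℝ} (hw : coeff 2 f = (w : ℂ))
    (h1w : 5 / 2 ≤ w ^ 2) : w ^ 4 - 3 * w ^ 2 + 1 ≤ (coeff 5 f).re := by
  rw [(coeffs_of_real hw).2.2]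
  have h1 := row_le hf
  set b1 := B1 f
  set b2 := B2 f
  set b3 := B3 f
  obtain ⟨p1, q1, hb1⟩ : ∃ p q : ℝ, b1 = ⟨p, q⟩ := ⟨b1.re, b1.im, rfl⟩
  obtain ⟨p2, q2, hb2⟩ : ∃ p q : ℝ, b2 = ⟨p, q⟩ := ⟨b2.re, b2.im, rfl⟩
  obtain ⟨p3, q3, hb3⟩ : ∃ p q : ℝ, b3 = ⟨p, q⟩ := ⟨b3.re, b3.im, rfl⟩
  set t := -(w * q1 + q2) / 2 with ht
  have h2 : (QG ⟨w, t⟩ 1 b1 b2 b3).re ≤ Complex.normSq ⟨w, t⟩ + Complex.normSq 1 / 2 :=
    grunsky_S hf ⟨w, t⟩ 1
  unfold QG at h2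
  rw [hb1, hb2, hb3] at h2
  rw [hb1, hb2] at h1
  rw [hb1, hb2, hb3]
  simp only [Complex.normSq_mk] at h1 h2
  simp only [Complex.add_re, Complex.sub_re, Complex.mul_re, Complex.mul_im, pow_succ,
    Complex.ofReal_re, Complex.ofReal_im, pow_zero, one_mul, Complex.div_re, Complex.re_ofNat,
    Complex.im_ofNat, Complex.one_re, Complex.one_im, Complex.normSq_ofNat, map_one] at h2 ⊢
  have hx : 0 ≤ 1 - p1 := by nlinarith [mul_self_nonneg q1, mul_self_nonneg p2, mul_self_nonneg q2]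
  have hx2 : (1 - p1) ^ 2 + q1 ^ 2 + 2 * q2 ^ 2 ≤ 2 * (1 - p1) := by
    nlinarith [mul_self_nonneg p2]
  have hs2 : 0 ≤ (1 - p1) * (w * q1 + q2) ^ 2 := mul_nonneg hx (sq_nonneg _)
  have hform : 0 ≤ w ^ 2 * (1 - p1) ^ 2 + (3 / 2 * w ^ 2 - 3) * q1 ^ 2 + w * q1 * q2
      + (2 * w ^ 2 - 5 / 2) * q2 ^ 2 := by
    have a1 : 0 ≤ w ^ 2 * (1 - p1) ^ 2 := by positivity
    have a2 : 0 ≤ (3 / 2 * w ^ 2 - 3) * q1 ^ 2 + w * q1 * q2 + (2 * w ^ 2 - 5 / 2) * q2 ^ 2 := by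
      nlinarith [sq_nonneg (q1 + w * q2), sq_nonneg (q1 / 2 + w * q2), sq_nonneg q1, sq_nonneg q2,
        mul_nonneg (sub_nonneg.2 h1w) (sq_nonneg q1), mul_nonneg (sub_nonneg.2 h1w) (sq_nonneg q2)]
    linarith
  have hk : (w ^ 2 - 3 / 2) * ((1 - p1) ^ 2 + q1 ^ 2 + 2 * q2 ^ 2)
      ≤ (w ^ 2 - 3 / 2) * (2 * (1 - p1)) := mul_le_mul_of_nonneg_left hx2 (by linarith)
  rw [ht] at h2
  nlinarith [h2, hk, hform, hs2]

end Pool.Agent.Helper32.DX
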